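import Pool.Agent.Lib_helper5.P5K

/-! generated: classes -/

namespace Pool.Agent.Lib_helper5.K5

/-- non residues -/
def ds5 : List ℕ := [nat_lit 2, nat_lit 3]
/-- non residues -/
def ds7 : List ℕ := [nat_lit 3, nat_lit 5, nat_lit 6]
/-- non residues -/
def ds11 : List ℕ := [nat_lit 2, nat_lit 6, nat_lit 7, nat_lit 8, nat_lit 10]
/-- non residues -/
def ds13 : List ℕ := [nat_lit 2, nat_lit 5, nat_lit 6, nat_lit 7, nat_lit 8, nat_lit 11]
/-- non residues -/
def ds17 : List ℕ := [nat_lit 3, nat_lit 5, nat_lit 6, nat_lit 7, nat_lit 10, nat_lit 11, nat_lit 12, nat_lit 14]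
/-- non residues -/
def ds19 : List ℕ := [nat_lit 2, nat_lit 3, nat_lit 8, nat_lit 10, nat_lit 12, nat_lit 13, nat_lit 14, nat_lit 15, nat_lit 18]

/-- classes modulo 5 -/
def D5 : List (ℕ × ℕ × ℕ) := [(nat_lit 0, nat_lit 0, nat_lit 2), (nat_lit 0, nat_lit 0, nat_lit 3), (nat_lit 0, nat_lit 1, nat_lit 3), (nat_lit 0, nat_lit 1, nat_lit 4), (nat_lit 0, nat_lit 2, nat_lit 3), (nat_lit 0, nat_lit 2, nat_lit 4), (nat_lit 0, nat_lit 3, nat_lit 1), (nat_lit 0, nat_lit 3, nat_lit 2), (nat_lit 0, nat_lit 4, nat_lit 1), (nat_lit 0, nat_lit 4, nat_lit 2), (nat_lit 1, nat_lit 0, nat_lit 1), (nat_lit 1, nat_lit 0, nat_lit 2), (nat_lit 1, nat_lit 1, nat_lit 0), (nat_lit 1, nat_lit 1, nat_lit 3), (nat_lit 1, nat_lit 2, nat_lit 1), (nat_lit 1, nat_lit 2, nat_lit 4), (nat_lit 1, nat_lit 3, nat_lit 3), (nat_lit 1, nat_lit 3, nat_lit 4), (nat_lit 1, nat_lit 4, nat_lit 3), (nat_lit 1, nat_lit 4, nat_lit 4), (nat_lit 2, nat_lit 0, nat_lit 0), (nat_lit 2, nat_lit 0, nat_lit 3), (nat_lit 2, nat_lit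 1, nat_lit 2), (nat_lit 2, nat_lit 1, nat_lit 3), (nat_lit 2, nat_lit 2, nat_lit 3), (nat_lit 2, nat_lit 2, nat_lit 4), (nat_lit 2, nat_lit 3, nat_lit 3), (nat_lit 2, nat_lit 3, nat_lit 4), (nat_lit 2, nat_lit 4, nat_lit 0), (nat_lit 2, nat_lit 4, nat_lit 3), (nat_lit 3, nat_lit 0, nat_lit 0), (nat_lit 3, nat_lit 0, nat_lit 2), (nat_lit 3, nat_lit 1, nat_lit 0), (nat_lit 3, nat_lit 1, nat_lit 2), (nat_lit 3, nat_lit 2, nat_lit 1), (nat_lit 3, nat_lit 2, nat_lit 2), (nat_lit 3, nat_lit 3, nat_lit 1), (nat_lit 3, nat_lit 3, nat_lit 2), (nat_lit 3, nat_lit 4, nat_lit 2), (nat_lit 3, nat_lit 4, nat_lit 3), (nat_lit 4, nat_lit 0, nat_lit 3), (nat_lit 4, nat_lit 0, nat_lit 4), (nat_lit 4, nat_lit 1, nat_lit 1), (nat_lit 4, nat_lit 1, nat_lit 2), (nat_lit 4, nat_lit 2, nat_lit 1), (nat_lit 4, nat_lit 2, nat_lit 2), (nat_lit 4, nat_lit 3, nat_lit 1), (nat_lit 4, nat_lit 3, nat_lit 4), (nat_lit 4, nat_lit 4, nat_lit 0), (nat_lit 4, nat_lit 4, nat_lit 2)]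
/-- classes modulo 7, up to sign -/
def D7 : List (ℕ × ℕ × ℕ) := [(nat_lit 0, nat_lit 0, nat_lit 1), (nat_lit 0, nat_lit 0, nat_lit 3), (nat_lit 0, nat_lit 1, nat_lit 0), (nat_lit 0, nat_lit 1, nat_lit 2), (nat_lit 0, nat_lit 1, nat_lit 4), (nat_lit 0, nat_lit 1, nat_lit 6), (nat_lit 0, nat_lit 2, nat_lit 1), (nat_lit 0, nat_lit 2, nat_lit 3), (nat_lit 0, nat_lit 2, nat_lit 4), (nat_lit 0, nat_lit 2, nat_lit 6), (nat_lit 0, nat_lit 3, nat_lit 0), (nat_lit 0, nat_lit 3, nat_lit 2), (nat_lit 0, nat_lit 3, nat_lit 3), (nat_lit 0, nat_lit 3, nat_lit 5), (nat_lit 1, nat_lit 0, nat_lit 0), (nat_lit 1, nat_lit 0, nat_lit 1), (nat_lit 1, nat_lit 0, nat_lit 4), (nat_lit 1, nat_lit 0, nat_lit 5), (nat_lit 1, nat_lit 1, nat_lit 0), (nat_lit 1, nat_lit 1, nat_lit 3), (nat_lit 1, nat_lit 1, nat_lit 4), (nat_lit 1, nat_lit 1, nat_lit 6), (nat_lit 1, nat_lit 2, nat_lit 2), (nat_lit 1, nat_lit 2, nat_lit 3), (nat_lit 1, nat_lit 2, nat_lit 4), (nat_lit 1, nat_lit 2, nat_lit 5), (nat_lit 1, nat_lit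 3, nat_lit 0), (nat_lit 1, nat_lit 3, nat_lit 4), (nat_lit 1, nat_lit 3, nat_lit 5), (nat_lit 1, nat_lit 3, nat_lit 6), (nat_lit 1, nat_lit 4, nat_lit 1), (nat_lit 1, nat_lit 4, nat_lit 2), (nat_lit 1, nat_lit 4, nat_lit 5), (nat_lit 1, nat_lit 4, nat_lit 6), (nat_lit 1, nat_lit 5, nat_lit 0), (nat_lit 1, nat_lit 5, nat_lit 3), (nat_lit 1, nat_lit 5, nat_lit 4), (nat_lit 1, nat_lit 5, nat_lit 6), (nat_lit 1, nat_lit 6, nat_lit 0), (nat_lit 1, nat_lit 6, nat_lit 2), (nat_lit 1, nat_lit 6, nat_lit 4), (nat_lit 1, nat_lit 6, nat_lit 6), (nat_lit 2, nat_lit 0, nat_lit 1), (nat_lit 2, nat_lit 0, nat_lit 2), (nat_lit 2, nat_lit 0, nat_lit 5), (nat_lit 2, nat_lit 0, nat_lit 6), (nat_lit 2, nat_lit 1, nat_lit 1), (nat_lit 2, nat_lit 1, nat_lit 3), (nat_lit 2, nat_lit 1, nat_lit 4), (nat_lit 2, nat_lit 1, nat_lit 6), (nat_lit 2, nat_lit 2, nat_lit 1), (nat_lit 2, nat_lit 2, nat_lit 3), (nat_lit 2, nat_lit 2, nat_lit 4), (nat_lit 2, nat_lit 2, nat_lit 6), (nat_lit 2, nat_lit 3, nat_lit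 2), (nat_lit 2, nat_lit 3, nat_lit 3), (nat_lit 2, nat_lit 3, nat_lit 4), (nat_lit 2, nat_lit 3, nat_lit 5), (nat_lit 2, nat_lit 4, nat_lit 0), (nat_lit 2, nat_lit 4, nat_lit 2), (nat_lit 2, nat_lit 4, nat_lit 3), (nat_lit 2, nat_lit 4, nat_lit 5), (nat_lit 2, nat_lit 5, nat_lit 0), (nat_lit 2, nat_lit 5, nat_lit 2), (nat_lit 2, nat_lit 5, nat_lit 4), (nat_lit 2, nat_lit 5, nat_lit 6), (nat_lit 2, nat_lit 6, nat_lit 0), (nat_lit 2, nat_lit 6, nat_lit 3), (nat_lit 2, nat_lit 6, nat_lit 4), (nat_lit 2, nat_lit 6, nat_lit 6), (nat_lit 3, nat_lit 0, nat_lit 0), (nat_lit 3, nat_lit 0, nat_lit 1), (nat_lit 3, nat_lit 0, nat_lit 5), (nat_lit 3, nat_lit 0, nat_lit 6), (nat_lit 3, nat_lit 1, nat_lit 2), (nat_lit 3, nat_lit 1, nat_lit 3), (nat_lit 3, nat_lit 1, nat_lit 4), (nat_lit 3, nat_lit 1, nat_lit 5), (nat_lit 3, nat_lit 2, nat_lit 0), (nat_lit 3, nat_lit 2, nat_lit 3), (nat_lit 3, nat_lit 2, nat_lit 4), (nat_lit 3, nat_lit 2, nat_lit 6), (nat_lit 3, nat_lit 3, nat_lit 2), (nat_lit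 3, nat_lit 3, nat_lit 3), (nat_lit 3, nat_lit 3, nat_lit 4), (nat_lit 3, nat_lit 3, nat_lit 5), (nat_lit 3, nat_lit 4, nat_lit 0), (nat_lit 3, nat_lit 4, nat_lit 4), (nat_lit 3, nat_lit 4, nat_lit 5), (nat_lit 3, nat_lit 4, nat_lit 6), (nat_lit 3, nat_lit 5, nat_lit 0), (nat_lit 3, nat_lit 5, nat_lit 1), (nat_lit 3, nat_lit 5, nat_lit 3), (nat_lit 3, nat_lit 5, nat_lit 5), (nat_lit 3, nat_lit 6, nat_lit 1), (nat_lit 3, nat_lit 6, nat_lit 3), (nat_lit 3, nat_lit 6, nat_lit 4), (nat_lit 3, nat_lit 6, nat_lit 6)]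
/-- classes modulo 455 -/
def S455 : List ℕ := [nat_lit 171877, nat_lit 572290, nat_lit 572295, nat_lit 572300, nat_lit 572330, nat_lit 572335, nat_lit 575790, nat_lit 575795, nat_lit 575800, nat_lit 575830, nat_lit 575835, nat_lit 577540, nat_lit 577545, nat_lit 577550, nat_lit 577580, nat_lit 577585, nat_lit 595040, nat_lit 595045, nat_lit 595050, nat_lit 595080, nat_lit 595085, nat_lit 901383, nat_lit 6689440, nat_lit 6689445, nat_lit 6689450, nat_lit 6689480, nat_lit 6689485, nat_lit 6709565, nat_lit 6709570, nat_lit 6709575, nat_lit 6709605, nat_lit 6709610, nat_lit 6714815, nat_lit 6714820, nat_lit 6714825, nat_lit 6714855, nat_lit 6714860, nat_lit 6773596, nat_lit 7079899, nat_lit 7252082, nat_lit 7252096, nat_lit 7855901, nat_lit 10135452, nat_lit 11719790, nat_lit 11719795, nat_lit 11719800, nat_lit 11719830, nat_lit 11719835, nat_lit 11723290, nat_lit 11723295, nat_lit 11723300, nat_lit 11723330, nat_lit 11723335, nat_lit 11725040, nat_lit 11725045, nat_lit 11725050,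 nat_lit 11725080, nat_lit 11725085, nat_lit 11742540, nat_lit 11742545, nat_lit 11742550, nat_lit 11742580, nat_lit 11742585, nat_lit 12834540, nat_lit 12834545, nat_lit 12834550, nat_lit 12834580, nat_lit 12834585, nat_lit 12838040, nat_lit 12838045, nat_lit 12838050, nat_lit 12838080, nat_lit 12838085, nat_lit 12839790, nat_lit 12839795, nat_lit 12839800, nat_lit 12839830, nat_lit 12839835, nat_lit 12857290, nat_lit 12857295, nat_lit 12857300, nat_lit 12857330, nat_lit 12857335, nat_lit 14510184, nat_lit 14510198, nat_lit 15209633, nat_lit 15209683, nat_lit 19523040, nat_lit 19523045, nat_lit 19523050, nat_lit 19523080, nat_lit 19523085, nat_lit 19526540, nat_lit 19526545, nat_lit 19526550, nat_lit 19526580, nat_lit 19526585, nat_lit 19528290, nat_lit 19528295, nat_lit 19528300, nat_lit 19528330, nat_lit 19528335, nat_lit 19545790, nat_lit 19545795, nat_lit 19545800, nat_lit 19545830, nat_lit 19545835, nat_lit 22215704, nat_lit 22400332, nat_lit 22867290, nat_lit 22867295,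 nat_lit 22867300, nat_lit 22867330, nat_lit 22867335, nat_lit 22870790, nat_lit 22870795, nat_lit 22870800, nat_lit 22870830, nat_lit 22870835, nat_lit 22872540, nat_lit 22872545, nat_lit 22872550, nat_lit 22872580, nat_lit 22872585, nat_lit 22890040, nat_lit 22890045, nat_lit 22890050, nat_lit 22890080, nat_lit 22890085, nat_lit 28578848, nat_lit 28998415, nat_lit 28998420, nat_lit 28998425, nat_lit 28998455, nat_lit 28998460, nat_lit 29001915, nat_lit 29001920, nat_lit 29001925, nat_lit 29001955, nat_lit 29001960, nat_lit 29003665, nat_lit 29003670, nat_lit 29003675, nat_lit 29003705, nat_lit 29003710, nat_lit 29021165, nat_lit 29021170, nat_lit 29021175, nat_lit 29021205, nat_lit 29021210, nat_lit 32342665, nat_lit 32342670, nat_lit 32342675, nat_lit 32342705, nat_lit 32342710, nat_lit 32346165, nat_lit 32346170, nat_lit 32346175, nat_lit 32346205, nat_lit 32346210, nat_lit 32347915, nat_lit 32347920, nat_lit 32347925, nat_lit 32347955, nat_lit 32347960, nat_lit 32365415,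 nat_lit 32365420, nat_lit 32365425, nat_lit 32365455, nat_lit 32365460, nat_lit 32900040, nat_lit 32900045, nat_lit 32900050, nat_lit 32900080, nat_lit 32900085, nat_lit 32903540, nat_lit 32903545, nat_lit 32903550, nat_lit 32903580, nat_lit 32903585, nat_lit 32905290, nat_lit 32905295, nat_lit 32905300, nat_lit 32905330, nat_lit 32905335, nat_lit 32922790, nat_lit 32922795, nat_lit 32922800, nat_lit 32922830, nat_lit 32922835, nat_lit 34413256, nat_lit 34413331, nat_lit 34634411, nat_lit 36346002, nat_lit 36787690, nat_lit 36787695, nat_lit 36787700, nat_lit 36787730, nat_lit 36787735, nat_lit 36807815, nat_lit 36807820, nat_lit 36807825, nat_lit 36807855, nat_lit 36807860, nat_lit 36813065, nat_lit 36813070, nat_lit 36813075, nat_lit 36813105, nat_lit 36813110, nat_lit 37964706, nat_lit 41751794, nat_lit 42375415, nat_lit 42375420, nat_lit 42375425, nat_lit 42375455, nat_lit 42375460, nat_lit 42378915, nat_lit 42378920, nat_lit 42378925, nat_lit 42378955, nat_lit 42378960,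 nat_lit 42380665, nat_lit 42380670, nat_lit 42380675, nat_lit 42380705, nat_lit 42380710, nat_lit 42398165, nat_lit 42398170, nat_lit 42398175, nat_lit 42398205, nat_lit 42398210, nat_lit 42444702, nat_lit 42966246, nat_lit 44076581, nat_lit 45719665, nat_lit 45719670, nat_lit 45719675, nat_lit 45719705, nat_lit 45719710, nat_lit 45723165, nat_lit 45723170, nat_lit 45723175, nat_lit 45723205, nat_lit 45723210, nat_lit 45724915, nat_lit 45724920, nat_lit 45724925, nat_lit 45724955, nat_lit 45724960, nat_lit 45742415, nat_lit 45742420, nat_lit 45742425, nat_lit 45742455, nat_lit 45742460, nat_lit 45794347, nat_lit 45831957, nat_lit 47469897, nat_lit 47935190, nat_lit 47935195, nat_lit 47935200, nat_lit 47935230, nat_lit 47935235, nat_lit 47955315, nat_lit 47955320, nat_lit 47955325, nat_lit 47955355, nat_lit 47955360, nat_lit 47960565, nat_lit 47960570, nat_lit 47960575, nat_lit 47960605, nat_lit 47960610, nat_lit 49049940, nat_lit 49049945, nat_lit 49049950, nat_lit 49049980,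 nat_lit 49049985, nat_lit 49070065, nat_lit 49070070, nat_lit 49070075, nat_lit 49070105, nat_lit 49070110, nat_lit 49075315, nat_lit 49075320, nat_lit 49075325, nat_lit 49075355, nat_lit 49075360, nat_lit 49696842, nat_lit 50255097, nat_lit 52070661, nat_lit 52070736, nat_lit 52408165, nat_lit 52408170, nat_lit 52408175, nat_lit 52408205, nat_lit 52408210, nat_lit 52411665, nat_lit 52411670, nat_lit 52411675, nat_lit 52411705, nat_lit 52411710, nat_lit 52413415, nat_lit 52413420, nat_lit 52413425, nat_lit 52413455, nat_lit 52413460, nat_lit 52430915, nat_lit 52430920, nat_lit 52430925, nat_lit 52430955, nat_lit 52430960, nat_lit 53522915, nat_lit 53522920, nat_lit 53522925, nat_lit 53522955, nat_lit 53522960, nat_lit 53526415, nat_lit 53526420, nat_lit 53526425, nat_lit 53526455, nat_lit 53526460, nat_lit 53528165, nat_lit 53528170, nat_lit 53528175, nat_lit 53528205, nat_lit 53528210, nat_lit 53545665, nat_lit 53545670, nat_lit 53545675, nat_lit 53545705, nat_lit 53545710,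 nat_lit 55262536, nat_lit 55738440, nat_lit 55738445, nat_lit 55738450, nat_lit 55738480, nat_lit 55738485, nat_lit 55758565, nat_lit 55758570, nat_lit 55758575, nat_lit 55758605, nat_lit 55758610, nat_lit 55763815, nat_lit 55763820, nat_lit 55763825, nat_lit 55763855, nat_lit 55763860, nat_lit 59082690, nat_lit 59082695, nat_lit 59082700, nat_lit 59082730, nat_lit 59082735, nat_lit 59102815, nat_lit 59102820, nat_lit 59102825, nat_lit 59102855, nat_lit 59102860, nat_lit 59108065, nat_lit 59108070, nat_lit 59108075, nat_lit 59108105, nat_lit 59108110, nat_lit 64670415, nat_lit 64670420, nat_lit 64670425, nat_lit 64670455, nat_lit 64670460, nat_lit 64673915, nat_lit 64673920, nat_lit 64673925, nat_lit 64673955, nat_lit 64673960, nat_lit 64675665, nat_lit 64675670, nat_lit 64675675, nat_lit 64675705, nat_lit 64675710, nat_lit 64693165, nat_lit 64693170, nat_lit 64693175, nat_lit 64693205, nat_lit 64693210, nat_lit 65213815, nat_lit 65213820, nat_lit 65213825, nat_lit 65213855,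 nat_lit 65213860, nat_lit 65231332, nat_lit 65231346, nat_lit 65233940, nat_lit 65233945, nat_lit 65233950, nat_lit 65233980, nat_lit 65233985, nat_lit 65239190, nat_lit 65239195, nat_lit 65239200, nat_lit 65239230, nat_lit 65239235, nat_lit 67641462, nat_lit 68558065, nat_lit 68558070, nat_lit 68558075, nat_lit 68558105, nat_lit 68558110, nat_lit 68578190, nat_lit 68578195, nat_lit 68578200, nat_lit 68578230, nat_lit 68578235, nat_lit 68583440, nat_lit 68583445, nat_lit 68583450, nat_lit 68583480, nat_lit 68583485, nat_lit 68672957, nat_lit 69115440, nat_lit 69115445, nat_lit 69115450, nat_lit 69115480, nat_lit 69115485, nat_lit 69135565, nat_lit 69135570, nat_lit 69135575, nat_lit 69135605, nat_lit 69135610, nat_lit 69140815, nat_lit 69140820, nat_lit 69140825, nat_lit 69140855, nat_lit 69140860, nat_lit 69513996, nat_lit 70855116, nat_lit 73894236, nat_lit 78590815, nat_lit 78590820, nat_lit 78590825, nat_lit 78590855, nat_lit 78590860, nat_lit 78610940, nat_lit 78610945,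 nat_lit 78610950, nat_lit 78610980, nat_lit 78610985, nat_lit 78616190, nat_lit 78616195, nat_lit 78616200, nat_lit 78616230, nat_lit 78616235, nat_lit 78704789, nat_lit 78704808, nat_lit 78766117, nat_lit 79778293, nat_lit 80661381, nat_lit 80661456, nat_lit 80932649, nat_lit 80932699, nat_lit 81060164, nat_lit 81935065, nat_lit 81935070, nat_lit 81935075, nat_lit 81935105, nat_lit 81935110, nat_lit 81955190, nat_lit 81955195, nat_lit 81955200, nat_lit 81955230, nat_lit 81955235, nat_lit 81960440, nat_lit 81960445, nat_lit 81960450, nat_lit 81960480, nat_lit 81960485, nat_lit 84275092, nat_lit 84288127, nat_lit 85361661, nat_lit 85361736, nat_lit 87073252, nat_lit 87073327, nat_lit 87588506, nat_lit 87588581, nat_lit 88623565, nat_lit 88623570, nat_lit 88623575, nat_lit 88623605, nat_lit 88623610, nat_lit 88643690, nat_lit 88643695, nat_lit 88643700, nat_lit 88643730, nat_lit 88643735, nat_lit 88648940, nat_lit 88648945, nat_lit 88648950, nat_lit 88648980, nat_lit 88648985,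 nat_lit 89738315, nat_lit 89738320, nat_lit 89738325, nat_lit 89738355, nat_lit 89738360, nat_lit 89758440, nat_lit 89758445, nat_lit 89758450, nat_lit 89758480, nat_lit 89758485, nat_lit 89763690, nat_lit 89763695, nat_lit 89763700, nat_lit 89763730, nat_lit 89763735, nat_lit 90386967, nat_lit 91414943, nat_lit 92993735, nat_lit 93767022, nat_lit 93767097]
/-- classes modulo 7735 -/
def S7735 : List ℕ := [nat_lit 9865095957, nat_lit 22995635295, nat_lit 31136874411, nat_lit 31136874486, nat_lit 73934246127, nat_lit 77043800036, nat_lit 77043800111, nat_lit 83480388582, nat_lit 107600839098, nat_lit 111797562131, nat_lit 111797562206, nat_lit 126288376485, nat_lit 129101445420, nat_lit 130967374506, nat_lit 130967374581, nat_lit 144318981952, nat_lit 160449349460, nat_lit 205376676348, nat_lit 206851430092, nat_lit 209100346950, nat_lit 225642716300, nat_lit 259156627957, nat_lit 278867064347, nat_lit 296485688967, nat_lit 309704417274, nat_lit 309704417324, nat_lit 348862722330,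 nat_lit 355062950485, nat_lit 355094720860, nat_lit 355095278235, nat_lit 355114786360, nat_lit 355115901110, nat_lit 355794918008, nat_lit 355794918058, nat_lit 398969118022, nat_lit 405925083455, nat_lit 427652137585, nat_lit 435839504002, nat_lit 435839504077, nat_lit 437347161256, nat_lit 437347161331, nat_lit 438062219110, nat_lit 456625568070, nat_lit 459017732735, nat_lit 461467611772, nat_lit 461467611847]
/-- classes modulo 85085 -/
def S85085 : List ℕ := [nat_lit 138772219440147, nat_lit 174091313569582, nat_lit 220394113057598, nat_lit 271026758058342, nat_lit 462216312072485, nat_lit 586495182387077, nat_lit 605784139543235]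

end Pool.Agent.Lib_helper5.K5
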