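import Pool.Agent.Lib_helper5.K5.FnA

/-! generated: stage A -/

namespace Pool.Agent.Lib_helper5.K5

lemma stA_6 : stA (nat_lit 6) (nat_lit 0) (nat_lit 13) = true := by decide +kernel

lemma stA_7 : stA (nat_lit 7) (nat_lit 0) (nat_lit 13) = true := by decide +kernel

lemma stA_8 : stA (nat_lit 8) (nat_lit 0) (nat_lit 13) = true := by decide +kernel

end Pool.Agent.Lib_helper5.K5
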