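import Pool.Agent.Lib_helper5.K5.FnA

/-! generated: stage A -/

namespace Pool.Agent.Lib_helper5.K5

lemma stA_9 : stA (nat_lit 9) (nat_lit 0) (nat_lit 13) = true := by decide +kernel

lemma stA_10 : stA (nat_lit 10) (nat_lit 0) (nat_lit 13) = true := by decide +kernel

lemma stA_11 : stA (nat_lit 11) (nat_lit 0) (nat_lit 13) = true := by decide +kernel

lemma stA_12 : stA (nat_lit 12) (nat_lit 0) (nat_lit 13) = true := by decide +kernel

end Pool.Agent.Lib_helper5.K5
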