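import Pool.Agent.Lib_helper5.K5.FnB

/-! generated: stage B -/

namespace Pool.Agent.Lib_helper5.K5

lemma stB_0 : stB (nat_lit 0) (nat_lit 2) = true := by decide +kernel

end Pool.Agent.Lib_helper5.K5
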