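import Pool.Agent.Lib_helper5.K5.FnD

/-! generated: stage D -/

namespace Pool.Agent.Lib_helper5.K5

lemma stD_0 : stD (nat_lit 0) (nat_lit 11) = true := by decide +kernel

end Pool.Agent.Lib_helper5.K5
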