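import Pool.Agent.Lib_helper5.K5.Mem
import Pool.Agent.Lib_helper5.K5.KA0
import Pool.Agent.Lib_helper5.K5.KA1
import Pool.Agent.Lib_helper5.K5.KA2
import Pool.Agent.Lib_helper5.K5.KA3
import Pool.Agent.Lib_helper5.K5.KB0
import Pool.Agent.Lib_helper5.K5.KB1
import Pool.Agent.Lib_helper5.K5.KB2
import Pool.Agent.Lib_helper5.K5.KB3
import Pool.Agent.Lib_helper5.K5.KB4
import Pool.Agent.Lib_helper5.K5.KB5
import Pool.Agent.Lib_helper5.K5.KB6
import Pool.Agent.Lib_helper5.K5.KB7
import Pool.Agent.Lib_helper5.K5.KB8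
import Pool.Agent.Lib_helper5.K5.KD0
import Pool.Agent.Lib_helper5.K5.KE0
import Pool.Agent.Lib_helper5.K5.KE1
import Pool.Agent.Lib_helper5.K5.KE2
import Pool.Agent.Lib_helper5.K5.KE3
import Pool.Agent.Lib_helper5.K5.KE4

/-!
The elimination for period five.
-/

namespace Pool.Agent.Lib_helper5.K5

open LK

/-- stage A -/
lemma stageA {a b t : ℤ} (S : Sys a b t) (h7 : cl 7 a b t ∈ D7) : c455 a b t ∈ S455 := by
  have h5 := mem_D5 S
  have ha : rs 13 a < 13 := rs_lt a
  have hb : rs 13 b < 0 + 13 := by rw [zero_add]; exact rs_lt b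
  have key : ∀ x : ℕ, stA x 0 13 = true → rs 13 a = x → c455 a b t ∈ S455 := by
    intro x hx e
    rw [← e] at hx
    exact stA_spec S h7 h5 hx (Nat.zero_le _) hb
  generalize e : rs 13 a = x at ha
  interval_cases x
  · exact key 0 stA_0 e
  · exact key 1 stA_1 e
  · exact key 2 stA_2 e
  · exact key 3 stA_3 e
  · exact key 4 stA_4 e
  · exact key 5 stA_5 e
  · exact key 6 stA_6 e
  · exact key 7 stA_7 e
  · exact key 8 stA_8 e
  · exact key 9 stA_9 e
  · exact key 10 stA_10 e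
  · exact key 11 stA_11 e
  · exact key 12 stA_12 e

/-- stage B -/
lemma stageB {a b t : ℤ} (S : Sys a b t) (hc : c455 a b t ∈ S455) : c7735 a b t ∈ S7735 := by
  have ha : rs 17 a < 17 := rs_lt a
  rcases Nat.lt_or_ge (rs 17 a) 2 with h0 | h0
  · exact stB_spec (lo := 0) (n := 2) S hc stB_0 (by omega) (by omega)
  rcases Nat.lt_or_ge (rs 17 a) 4 with h1 | h1
  · exact stB_spec (lo := 2) (n := 2) S hc stB_1 (by omega) (by omega)
  rcases Nat.lt_or_ge (rs 17 a) 6 with h2 | h2
  · exact stB_spec (lo := 4) (n := 2) S hc stB_2 (by omega) (by omega)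
  rcases Nat.lt_or_ge (rs 17 a) 8 with h3 | h3
  · exact stB_spec (lo := 6) (n := 2) S hc stB_3 (by omega) (by omega)
  rcases Nat.lt_or_ge (rs 17 a) 10 with h4 | h4
  · exact stB_spec (lo := 8) (n := 2) S hc stB_4 (by omega) (by omega)
  rcases Nat.lt_or_ge (rs 17 a) 12 with h5 | h5
  · exact stB_spec (lo := 10) (n := 2) S hc stB_5 (by omega) (by omega)
  rcases Nat.lt_or_ge (rs 17 a) 14 with h6 | h6
  · exact stB_spec (lo := 12) (n := 2) S hc stB_6 (by omega) (by omega)
  rcases Nat.lt_or_ge (rs 17 a) 16 with h7 | h7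
  · exact stB_spec (lo := 14) (n := 2) S hc stB_7 (by omega) (by omega)
  · exact stB_spec (lo := 16) (n := 1) S hc stB_8 (by omega) (by omega)

/-- stage D -/
lemma stageD {a b t : ℤ} (S : Sys a b t) (hc : c7735 a b t ∈ S7735) : c85085 a b t ∈ S85085 := by
  have ha : rs 11 a < 11 := rs_lt a
  exact stD_spec (lo := 0) (n := 11) S hc stD_0 (by omega) (by omega)

/-- stage E -/
lemma stageE {a b t : ℤ} (S : Sys a b t) (hc : c85085 a b t ∈ S85085) : False := by
  have ha : rs 19 a < 19 := rs_lt a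
  rcases Nat.lt_or_ge (rs 19 a) 4 with h0 | h0
  · exact stE_spec (lo := 0) (n := 4) S hc stE_0 (by omega) (by omega)
  rcases Nat.lt_or_ge (rs 19 a) 8 with h1 | h1
  · exact stE_spec (lo := 4) (n := 4) S hc stE_1 (by omega) (by omega)
  rcases Nat.lt_or_ge (rs 19 a) 12 with h2 | h2
  · exact stE_spec (lo := 8) (n := 4) S hc stE_2 (by omega) (by omega)
  rcases Nat.lt_or_ge (rs 19 a) 16 with h3 | h3
  · exact stE_spec (lo := 12) (n := 4) S hc stE_3 (by omega) (by omega)
  · exact stE_spec (lo := 16) (n := 3) S hc stE_4 (by omega) (by omega)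

lemma no_sys' {a b t : ℤ} (S : Sys a b t) (h7 : cl 7 a b t ∈ D7) : False :=
  stageE S (stageD S (stageB S (stageA S h7)))

/-- the system has no solution -/
theorem no_sys {a b t : ℤ} (S : Sys a b t) : False := by
  rcases mem_D7 S with h | h
  · exact no_sys' S h
  · exact no_sys' S.neg h

/-- **elimination for period five** -/
theorem elim5 (a b B : ℕ) (m m' : ℤ) (h : E5.Par a b B m m') (hm2 : m % 2 = 1) (hB2 : B % 2 = 1)
    [IsDomain (QuadraticAlgebra ℤ m (B : ℤ))]
    [UniqueFactorizationMonoid (QuadraticAlgebra ℤ m (B : ℤ))] (h1 : 19 < m) (h2 : 19 < m') :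
    False := by
  obtain ⟨t, S⟩ := sys_of h hm2 hB2 h1 h2
  exact no_sys S

end Pool.Agent.Lib_helper5.K5
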