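import Pool.Agent.Lib_helper5.K5.Z

/-!
Stage A: classes modulo 455.
-/

namespace Pool.Agent.Lib_helper5.K5

open Finset LK Pool.Agent.LibH4 Pool.Agent.LibH4.Ker Pool.Agent.LibH4.T6 Pool.Agent.LibH4.KF

/-- vectors of a class, middle component -/
def vA (p T w3 w : ℕ) (L : List (ℕ × ℕ)) (c : ℕ × ℕ × ℕ) : ℕ :=
  withP5 p c.1 c.2.1 c.2.2 fun B m m1 nm nm1 R2 R3 _ =>
    vecA p T (Nat.pow (nat_lit 2) w3) w L (forms5 p B m m1 nm nm1 R2 R3) (nat_lit 0)
/-- vectors of a class, inner component -/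
def vB (p T w3 : ℕ) (L : List (ℕ × ℕ)) (c : ℕ × ℕ × ℕ) : ℕ :=
  withP5 p c.1 c.2.1 c.2.2 fun B m m1 nm nm1 R2 R3 _ =>
    vecB p T (nat_lit 1208925819614629174706176) w3 L (forms5 p B m m1 nm nm1 R2 R3)
/-- code of a class -/
def cdK (p : ℕ) (c : ℕ × ℕ × ℕ) : ℕ := Nat.add c.1 (Nat.mul p (Nat.add c.2.1 (Nat.mul p c.2.2)))

/-- the class of a triple -/
def cl (p : ℕ) (a b t : ℤ) : ℕ × ℕ × ℕ := (rs p a, rs p b, rs p t)
/-- the code of a triple modulo 455 -/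
def c455 (a b t : ℤ) : ℕ := cdK 5 (cl 5 a b t) + 125 * (cdK 7 (cl 7 a b t) + 343 * cdK 13 (cl 13 a b t))

lemma vA_eq {p : ℕ} [NeZero p] (hp : 1 < p) (T w3 w : ℕ) (L : List (ℕ × ℕ)) (a b t : ℤ) :
    vA p T w3 w L (cl p a b t) = VA p T w3 w L (J5 a b t) := by
  unfold vA cl
  rw [withP5_eq, forms5_eq hp, vecA_use]

lemma vB_eq {p : ℕ} [NeZero p] (hp : 1 < p) (T w3 : ℕ) (L : List (ℕ × ℕ)) (a b t : ℤ) :
    vB p T w3 L (cl p a b t) = VB p T w3 L (J5 a b t) := by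
  unfold vB cl
  rw [withP5_eq, forms5_eq hp, vecB_use]

/-- the check, for the classes modulo 13 with given `a` and `b` in an interval -/
def stA (a b0 nb : ℕ) : Bool :=
  ggl (nat_lit 13) T1_r91 (nat_lit 640) ds13 fun G91 =>
  ggl (nat_lit 13) T1_r455a (nat_lit 3840) ds13 fun Ga =>
  ggl (nat_lit 13) T1_r455b (nat_lit 3840) ds13 fun Gb =>
  ggl (nat_lit 13) T1_r455c (nat_lit 3840) ds13 fun Gc =>
  ggl (nat_lit 13) T1_r455d (nat_lit 3840) ds13 fun Gd =>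
  ggl (nat_lit 13) T1_r455e (nat_lit 3840) ds13 fun Ge =>
  mapK (fun x => vA (nat_lit 7) T2_r455e (nat_lit 480) (nat_lit 3840) L7 x) D7 fun E7e =>
  mapK (fun x => vA (nat_lit 7) T2_r455d (nat_lit 480) (nat_lit 3840) L7 x.1) E7e fun E7d =>
  mapK (fun x => vA (nat_lit 7) T2_r455c (nat_lit 480) (nat_lit 3840) L7 x.1.1) E7d fun E7c =>
  mapK (fun x => vA (nat_lit 7) T2_r455b (nat_lit 480) (nat_lit 3840) L7 x.1.1.1) E7c fun E7b =>
  mapK (fun x => vA (nat_lit 7) T2_r455a (nat_lit 480) (nat_lit 3840) L7 x.1.1.1.1) E7b fun E7a =>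
  mapK (fun x => vB (nat_lit 7) T3_r91 (nat_lit 640) L7 x.1.1.1.1.1) E7a fun E7 =>
  mapK (fun x => vB (nat_lit 5) T3_r455e (nat_lit 480) L5 x) D5 fun E5e =>
  mapK (fun x => vB (nat_lit 5) T3_r455d (nat_lit 480) L5 x.1) E5e fun E5d =>
  mapK (fun x => vB (nat_lit 5) T3_r455c (nat_lit 480) L5 x.1.1) E5d fun E5c =>
  mapK (fun x => vB (nat_lit 5) T3_r455b (nat_lit 480) L5 x.1.1.1) E5c fun E5b =>
  mapK (fun x => vB (nat_lit 5) T3_r455a (nat_lit 480) L5 x.1.1.1.1) E5b fun E5 =>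
  allR (fun bb => strict (Nat.add bb b0) fun b => allR (fun t =>
   withP5 (nat_lit 13) a b t fun B _ _ nm nm1 R2 R3 d =>
   @Bool.rec (fun _ => Bool) true (
    (fun FK : List ((ℕ × ℕ) × (ℕ × ℕ)) =>
     rowA (nat_lit 13) T1_r91 (nat_lit 640) G91 W_r91 Y1_r91 Y0_r91 (nat_lit 1) (nat_lit 13) d FK
       (nat_lit 0) fun A => strict A fun A91 =>
     rowA (nat_lit 13) T1_r455a (nat_lit 3840) Ga W_r455a Y1_r455a Y0_r455a (nat_lit 1) (nat_lit 13)
       d FK (nat_lit 0) fun A => strict A fun Aa =>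
     rowA (nat_lit 13) T1_r455b (nat_lit 3840) Gb W_r455b Y1_r455b Y0_r455b (nat_lit 1) (nat_lit 13)
       d FK (nat_lit 0) fun A => strict A fun Ab =>
     rowA (nat_lit 13) T1_r455c (nat_lit 3840) Gc W_r455c Y1_r455c Y0_r455c (nat_lit 1) (nat_lit 13)
       d FK (nat_lit 0) fun A => strict A fun Ac =>
     rowA (nat_lit 13) T1_r455d (nat_lit 3840) Gd W_r455d Y1_r455d Y0_r455d (nat_lit 1) (nat_lit 13)
       d FK (nat_lit 0) fun A => strict A fun Ad =>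
     rowA (nat_lit 13) T1_r455e (nat_lit 3840) Ge W_r455e Y1_r455e Y0_r455e (nat_lit 1) (nat_lit 13)
       d FK (nat_lit 0) fun A => strict A fun Ae =>
     allL (fun x => cond0 (ip (nat_lit 2197) (nat_lit 2480) A91 x.2) (
       strict (red (nat_lit 3840) (nat_lit 480) (nat_lit 3360) (nat_lit 4) Aa x.1.2) fun Ra =>
       allL (fun y => cond0 (ip (nat_lit 2197) (nat_lit 1840) Ra y.2) (
        cond0 (strict (red (nat_lit 3840) (nat_lit 480) (nat_lit 3360) (nat_lit 4) Ab x.1.1.2)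
          fun R => ip (nat_lit 2197) (nat_lit 1840) R y.1.2) (
        cond0 (strict (red (nat_lit 3840) (nat_lit 480) (nat_lit 3360) (nat_lit 4) Ac x.1.1.1.2)
          fun R => ip (nat_lit 2197) (nat_lit 1840) R y.1.1.2) (
        cond0 (strict (red (nat_lit 3840) (nat_lit 480) (nat_lit 3360) (nat_lit 4) Ad x.1.1.1.1.2)
          fun R => ip (nat_lit 2197) (nat_lit 1840) R y.1.1.1.2) (
        cond0 (strict (red (nat_lit 3840) (nat_lit 480) (nat_lit 3360) (nat_lit 4) Ae x.1.1.1.1.1.2)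
          fun R => ip (nat_lit 2197) (nat_lit 1840) R y.1.1.1.1.2) (
        strict (Nat.add (cdK (nat_lit 5) y.1.1.1.1.1) (Nat.mul (nat_lit 125)
          (Nat.add (cdK (nat_lit 7) x.1.1.1.1.1.1) (Nat.mul (nat_lit 343)
            (cdK (nat_lit 13) (a, b, t)))))) fun c => memB c S455)))))) E5)) E7)
    (FK5 (nat_lit 13) (nat_lit 13) a b B B nm nm1 R2 R3))
   (Nat.beq (Nat.mod (Nat.pow d (nat_lit 6)) (nat_lit 13)) (nat_lit 12))) (nat_lit 13)) nb

theorem stA_spec {a b t : ℤ} (S : Sys a b t) (h7 : cl 7 a b t ∈ D7) (h5 : cl 5 a b t ∈ D5)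
    {b0 nb : ℕ} (h : stA (rs 13 a) b0 nb = true) (hb : b0 ≤ rs 13 b) (hb' : rs 13 b < b0 + nb) :
    c455 a b t ∈ S455 := by
  have HJ := J5_ok a b t
  unfold stA at h
  simp only [ggl_eq, mapK_eq] at h
  have h1 := allR_spec h (rs 13 b - b0) (by omega)
  rw [strict_eq] at h1
  have eb : Nat.add (rs 13 b - b0) b0 = rs 13 b := by
    change rs 13 b - b0 + b0 = _
    omega
  rw [eb] at h1
  have h2 := allR_spec h1 (rs 13 t) (rs_lt t)
  rw [withP5_eq] at h2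
  have i13 : Nat.beq (Nat.mod (Nat.pow (rs 13 (zd a b t)) (nat_lit 6)) (nat_lit 13)) (nat_lit 12)
    = true := S.i13
  rw [i13] at h2
  rw [FK5_eq] at h2
  obtain ⟨h3, C91⟩ := rowA_use (by norm_num) (by norm_num) h2
  obtain ⟨h4, Ca⟩ := rowA_use (by norm_num) (by norm_num) h3
  obtain ⟨h5', Cb⟩ := rowA_use (by norm_num) (by norm_num) h4
  obtain ⟨h6, Cc⟩ := rowA_use (by norm_num) (by norm_num) h5'
  obtain ⟨h7', Cd⟩ := rowA_use (by norm_num) (by norm_num) h6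
  obtain ⟨h8, Ce⟩ := rowA_use (by norm_num) (by norm_num) h7'
  have h9 := allL_spec h8 _ (List.mem_map_of_mem (List.mem_map_of_mem (List.mem_map_of_mem
    (List.mem_map_of_mem (List.mem_map_of_mem (List.mem_map_of_mem h7))))))
  have g91 := zB_r91 S C91
  rw [← vB_eq (by norm_num)] at g91
  have h10 := cond0_zero g91 h9
  rw [strict_eq] at h10
  have h11 := allL_spec h10 _ (List.mem_map_of_mem (List.mem_map_of_mem (List.mem_map_of_mem
    (List.mem_map_of_mem (List.mem_map_of_mem h5)))))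
  have ga := zB_r455a S Ca
  rw [← vB_eq (by norm_num), ← vA_eq (by norm_num)] at ga
  have h12 := cond0_zero ga h11
  simp only [strict_eq] at h12
  have gb := zB_r455b S Cb
  rw [← vB_eq (by norm_num), ← vA_eq (by norm_num)] at gb
  have h13 := cond0_zero gb h12
  have gc := zB_r455c S Cc
  rw [← vB_eq (by norm_num), ← vA_eq (by norm_num)] at gc
  have h14 := cond0_zero gc h13
  have gd := zB_r455d S Cd
  rw [← vB_eq (by norm_num), ← vA_eq (by norm_num)] at gd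
  have h15 := cond0_zero gd h14
  have ge := zB_r455e S Ce
  rw [← vB_eq (by norm_num), ← vA_eq (by norm_num)] at ge
  have h16 := cond0_zero ge h15
  exact memB_spec h16

end Pool.Agent.Lib_helper5.K5
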