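import Pool.Agent.Lib_helper5.K5.FnA

/-!
Stage B: classes modulo 7735.
-/

namespace Pool.Agent.Lib_helper5.K5

open Finset LK Pool.Agent.LibH4 Pool.Agent.LibH4.Ker Pool.Agent.LibH4.T6 Pool.Agent.LibH4.KF

/-! ### decoding -/

/-- the class modulo `p` in a code -/
def cls {β : Type} (p M c : ℕ) (k : ℕ → ℕ → ℕ → β) : β :=
  strict (Nat.mod (Nat.div c M) (Nat.mul p (Nat.mul p p))) fun x =>
  strict (Nat.mod x p) fun a => strict (Nat.mod (Nat.div x p) p) fun b =>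
  strict (Nat.div x (Nat.mul p p)) fun t => k a b t

lemma cdK_eq (p : ℕ) (a b t : ℤ) : cdK p (cl p a b t) = rs p a + p * (rs p b + p * rs p t) := rfl

lemma cdK_lt (p : ℕ) [NeZero p] (a b t : ℤ) : cdK p (cl p a b t) < p * (p * p) := by
  rw [cdK_eq]
  have h1 := rs_lt (p := p) a
  have h2 := rs_lt (p := p) b
  have h3 := rs_lt (p := p) t
  have h4 : p * (rs p b + p * rs p t + 1) ≤ p * (p * p) := by
    apply Nat.mul_le_mul_left
    have : p * (rs p t + 1) ≤ p * p := Nat.mul_le_mul_left _ h3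
    calc rs p b + p * rs p t + 1 ≤ p * (rs p t + 1) := by
          rw [mul_add, mul_one]; omega
      _ ≤ _ := this
  rw [mul_add, mul_one] at h4
  omega

lemma cls_eq {β : Type} {p M c : ℕ} [NeZero p] {a b t : ℤ} {k : ℕ → ℕ → ℕ → β}
    (h : c / M % (p * (p * p)) = cdK p (cl p a b t)) :
    cls p M c k = k (rs p a) (rs p b) (rs p t) := by
  have hp : 0 < p := Nat.pos_of_ne_zero (NeZero.ne p)
  have h1 := rs_lt (p := p) a
  have h2 := rs_lt (p := p) b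
  have h3 := rs_lt (p := p) t
  have e0 : Nat.mod (Nat.div c M) (Nat.mul p (Nat.mul p p)) = cdK p (cl p a b t) := h
  have e1 : Nat.mod (cdK p (cl p a b t)) p = rs p a := by
    change (rs p a + p * (rs p b + p * rs p t)) % p = _
    rw [Nat.add_mul_mod_self_left, Nat.mod_eq_of_lt h1]
  have e2' : (rs p a + p * (rs p b + p * rs p t)) / p = rs p b + p * rs p t := by
    rw [Nat.add_mul_div_left _ _ hp, Nat.div_eq_of_lt h1, zero_add]
  have e2 : Nat.mod (Nat.div (cdK p (cl p a b t)) p) p = rs p b := by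
    change ((rs p a + p * (rs p b + p * rs p t)) / p) % p = _
    rw [e2', Nat.add_mul_mod_self_left, Nat.mod_eq_of_lt h2]
  have e3 : Nat.div (cdK p (cl p a b t)) (Nat.mul p p) = rs p t := by
    change (rs p a + p * (rs p b + p * rs p t)) / (p * p) = _
    rw [← Nat.div_div_eq_div_mul, e2', Nat.add_mul_div_left _ _ hp, Nat.div_eq_of_lt h2, zero_add]
  unfold cls
  simp only [strict_eq]
  rw [e0, e1, e2, e3]

lemma cls_ex {p M c : ℕ} {k : ℕ → ℕ → ℕ → Bool} (h : cls p M c k = true) :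
    ∃ a b t, k a b t = true := by
  unfold cls at h
  simp only [strict_eq] at h
  exact ⟨_, _, _, h⟩

/-- data of a class in a code -/
def wq (p M c : ℕ) (k : ℕ → ℕ → ℕ → ℕ → ℕ → ℕ → ℕ → ℕ → ℕ → ℕ → Bool) : Bool :=
  cls p M c fun a b t => withP5 p a b t fun B m m1 nm nm1 R2 R3 d => k a b B m m1 nm nm1 R2 R3 d

lemma wq_eq {p M c : ℕ} [NeZero p] {a b t : ℤ}
    {k : ℕ → ℕ → ℕ → ℕ → ℕ → ℕ → ℕ → ℕ → ℕ → ℕ → Bool}
    (h : c / M % (p * (p * p)) = cdK p (cl p a b t)) :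
    wq p M c k = k (rs p a) (rs p b) (rs p (zB a b t)) (rs p (zm a b t))
      (rs p (zm1 a b t)) (rs p (-zm a b t)) (rs p (-zm1 a b t)) (rs p (zR2 a b t))
      (rs p (zR3 a b t)) (rs p (zd a b t)) := by
  unfold wq
  rw [cls_eq h, withP5_eq]

lemma wq_ex {p M c : ℕ} {k : ℕ → ℕ → ℕ → ℕ → ℕ → ℕ → ℕ → ℕ → ℕ → ℕ → Bool}
    (h : wq p M c k = true) : ∃ a b B m m1 nm nm1 R2 R3 d, k a b B m m1 nm nm1 R2 R3 d = true := by
  obtain ⟨a, b, t, h1⟩ := cls_ex h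
  obtain ⟨B, m, m1, nm, nm1, R2, R3, d, h2⟩ := withP5_ex h1
  exact ⟨a, b, B, m, m1, nm, nm1, R2, R3, d, h2⟩

/-- digits of the code modulo 455 -/
lemma c455_5 (a b t : ℤ) : c455 a b t / 1 % (5 * (5 * 5)) = cdK 5 (cl 5 a b t) := by
  have h5 := cdK_lt 5 a b t
  unfold c455
  rw [Nat.div_one]
  omega

lemma c455_7 (a b t : ℤ) : c455 a b t / 125 % (7 * (7 * 7)) = cdK 7 (cl 7 a b t) := by
  have h5 := cdK_lt 5 a b t
  have h7 := cdK_lt 7 a b t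
  unfold c455
  omega

lemma c455_13 (a b t : ℤ) : c455 a b t / 42875 % (13 * (13 * 13)) = cdK 13 (cl 13 a b t) := by
  have h5 := cdK_lt 5 a b t
  have h7 := cdK_lt 7 a b t
  have h13 := cdK_lt 13 a b t
  unfold c455
  omega

lemma c455_lt (a b t : ℤ) : c455 a b t < 94196375 := by
  have h5 := cdK_lt 5 a b t
  have h7 := cdK_lt 7 a b t
  have h13 := cdK_lt 13 a b t
  unfold c455
  omega

/-- the rows of a class modulo 455 -/
def rowsB (Gb Ga Gc Gd Ge : List (ℕ × ℕ × ℕ)) (c : ℕ)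
    (k : ((((ℕ × ℕ) × ℕ) × ℕ) × ℕ) × ℕ → Bool) : Bool :=
  wq (nat_lit 5) (nat_lit 1) c fun a5 b5 B5 _ _ nm5 nn5 R5 Q5 d5 =>
  wq (nat_lit 7) (nat_lit 125) c fun _ _ B7 m7 m17 nm7 nn7 R7 Q7 d7 =>
  wq (nat_lit 13) (nat_lit 42875) c fun a13 b13 B13 _ _ nm13 nn13 R13 Q13 d13 =>
  rowA (nat_lit 7) T1_r119b (nat_lit 1440) Gb W_r119b Y1_r119b Y0_r119b (nat_lit 0) (nat_lit 13) d7
    (FK5 (nat_lit 7) (nat_lit 13) a13 b13 B13 B7 nm7 nn7 R7 Q7) (nat_lit 0) fun A =>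
    strict A fun Ab =>
  rowA (nat_lit 7) T1_r119a (nat_lit 1440) Ga W_r119a Y1_r119a Y0_r119a (nat_lit 0) (nat_lit 5) d7
    (FK5 (nat_lit 7) (nat_lit 5) a5 b5 B5 B7 nm7 nn7 R7 Q7) (nat_lit 0) fun A =>
    strict A fun Aa =>
  rowA (nat_lit 13) T1_r221 (nat_lit 1440) Gc W_r221 Y1_r221 Y0_r221 (nat_lit 0) (nat_lit 5) d13
    (FK5 (nat_lit 13) (nat_lit 5) a5 b5 B5 B13 nm13 nn13 R13 Q13) (nat_lit 0) fun A =>
    strict A fun Ac =>
  rowA (nat_lit 5) T1_r595a (nat_lit 11520) Gd W_r595a Y1_r595a Y0_r595a (nat_lit 0) (nat_lit 13) d5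
    (FK5 (nat_lit 5) (nat_lit 13) a13 b13 B13 B5 nm5 nn5 R5 Q5) (nat_lit 0) fun A =>
    strict A fun Ad =>
  rowA (nat_lit 5) T1_r595b (nat_lit 11520) Ge W_r595b Y1_r595b Y0_r595b (nat_lit 0) (nat_lit 13) d5
    (FK5 (nat_lit 5) (nat_lit 13) a13 b13 B13 B5 nm5 nn5 R5 Q5) (nat_lit 0) fun A =>
    strict A fun Ae =>
  strict (red (nat_lit 11520) (nat_lit 1440) (nat_lit 10080) (nat_lit 4) Ad
    (vecA (nat_lit 7) T2_r595a (Nat.pow (nat_lit 2) (nat_lit 1440)) (nat_lit 11520) L7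
      (forms5 (nat_lit 7) B7 m7 m17 nm7 nn7 R7 Q7) (nat_lit 0))) fun Rd =>
  strict (red (nat_lit 11520) (nat_lit 1440) (nat_lit 10080) (nat_lit 4) Ae
    (vecA (nat_lit 7) T2_r595b (Nat.pow (nat_lit 2) (nat_lit 1440)) (nat_lit 11520) L7
      (forms5 (nat_lit 7) B7 m7 m17 nm7 nn7 R7 Q7) (nat_lit 0))) fun Re =>
  k (((((c, Ac), Aa), Re), Rd), Ab)

/-- the check -/
def stB (lo n : ℕ) : Bool :=
  ggl (nat_lit 7) T1_r119b (nat_lit 1440) ds7 fun Gb =>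
  ggl (nat_lit 7) T1_r119a (nat_lit 1440) ds7 fun Ga =>
  ggl (nat_lit 13) T1_r221 (nat_lit 1440) ds13 fun Gc =>
  ggl (nat_lit 5) T1_r595a (nat_lit 11520) ds5 fun Gd =>
  ggl (nat_lit 5) T1_r595b (nat_lit 11520) ds5 fun Ge =>
  ggl (nat_lit 17) T3_r119b (nat_lit 80) ds17 fun Hb =>
  ggl (nat_lit 17) T3_r119a (nat_lit 80) ds17 fun Ha =>
  ggl (nat_lit 17) T3_r221 (nat_lit 80) ds17 fun Hc =>
  ggl (nat_lit 17) T3_r595b (nat_lit 80) ds17 fun He =>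
  mapC (rowsB Gb Ga Gc Gd Ge) S455 fun E =>
  allR (fun aa => strict (Nat.add aa lo) fun a => allR (fun b => allR (fun t =>
   withP5 (nat_lit 17) a b t fun B m m1 nm nm1 R2 R3 d =>
   @Bool.rec (fun _ => Bool) true (
    (fun F : List (ℕ × ℕ × ℕ) =>
     vecC (nat_lit 17) T3_r119b (nat_lit 80) (nat_lit 1440) Hb d F fun v => strict v fun vb =>
     vecC (nat_lit 17) T3_r119a (nat_lit 80) (nat_lit 1440) Ha d F fun v => strict v fun va =>
     vecC (nat_lit 17) T3_r221 (nat_lit 80) (nat_lit 1440) Hc d F fun v => strict v fun vc =>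
     vecC (nat_lit 17) T3_r595b (nat_lit 80) (nat_lit 1440) He d F fun v => strict v fun ve =>
     strict (Nat.mul (nat_lit 94196375) (cdK (nat_lit 17) (a, b, t))) fun c17 =>
     allQ (fun x => cond0 (ip (nat_lit 13) (nat_lit 5680) x.2 vb)
       (cond0 (ip (nat_lit 13) (nat_lit 5680) x.1.2 vb)
       (cond0 (ip (nat_lit 13) (nat_lit 5680) x.1.1.2 ve)
       (cond0 (ip (nat_lit 5) (nat_lit 5680) x.1.1.1.2 va)
       (cond0 (ip (nat_lit 5) (nat_lit 5680) x.1.1.1.1.2 vc)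
       (strict (Nat.add x.1.1.1.1.1 c17) fun c => memB c S7735)))))) E)
    (forms5 (nat_lit 17) B m m1 nm nm1 R2 R3))
   (Nat.beq (Nat.mod (Nat.pow d (nat_lit 8)) (nat_lit 17)) (nat_lit 16)))
   (nat_lit 17)) (nat_lit 17)) n

lemma rowsB_ex {c : ℕ} {k : ((((ℕ × ℕ) × ℕ) × ℕ) × ℕ) × ℕ → Bool}
    (h : rowsB (ds7.map fun δ => (δ, gg 7 T1_r119b 1440 δ, LK.gs 7 T1_r119b δ))
      (ds7.map fun δ => (δ, gg 7 T1_r119a 1440 δ, LK.gs 7 T1_r119a δ))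
      (ds13.map fun δ => (δ, gg 13 T1_r221 1440 δ, LK.gs 13 T1_r221 δ))
      (ds5.map fun δ => (δ, gg 5 T1_r595a 11520 δ, LK.gs 5 T1_r595a δ))
      (ds5.map fun δ => (δ, gg 5 T1_r595b 11520 δ, LK.gs 5 T1_r595b δ)) c k = true) :
    ∃ y, k y = true := by
  unfold rowsB at h
  obtain ⟨_, _, _, _, _, _, _, _, _, _, h⟩ := wq_ex h
  obtain ⟨_, _, _, _, _, _, _, _, _, _, h⟩ := wq_ex h
  obtain ⟨_, _, _, _, _, _, _, _, _, _, h⟩ := wq_ex h
  obtain ⟨_, h⟩ := rowA_ex (by norm_num) (by norm_num) h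
  obtain ⟨_, h⟩ := rowA_ex (by norm_num) (by norm_num) h
  obtain ⟨_, h⟩ := rowA_ex (by norm_num) (by norm_num) h
  obtain ⟨_, h⟩ := rowA_ex (by norm_num) (by norm_num) h
  obtain ⟨_, h⟩ := rowA_ex (by norm_num) (by norm_num) h
  simp only [strict_eq] at h
  exact ⟨_, h⟩

/-- the value of the rows -/
def gB (a b t : ℤ) : ((((ℕ × ℕ) × ℕ) × ℕ) × ℕ) × ℕ :=
  (((((c455 a b t,
    RA 13 T1_r221 1440 W_r221 Y1_r221 Y0_r221 5 (zd a b t) (J5 a b t)),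
    RA 7 T1_r119a 1440 W_r119a Y1_r119a Y0_r119a 5 (zd a b t) (J5 a b t)),
    red 11520 1440 10080 4 (RA 5 T1_r595b 11520 W_r595b Y1_r595b Y0_r595b 13 (zd a b t) (J5 a b t))
      (VA 7 T2_r595b 1440 11520 L7 (J5 a b t))),
    red 11520 1440 10080 4 (RA 5 T1_r595a 11520 W_r595a Y1_r595a Y0_r595a 13 (zd a b t) (J5 a b t))
      (VA 7 T2_r595a 1440 11520 L7 (J5 a b t))),
    RA 7 T1_r119b 1440 W_r119b Y1_r119b Y0_r119b 13 (zd a b t) (J5 a b t))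

/-- the conditions of the rows -/
def CB (a b t : ℤ) : Prop :=
  RC 7 T1_r119b 0 13 (zd a b t) (J5 a b t) ∧ RC 7 T1_r119a 0 5 (zd a b t) (J5 a b t) ∧
  RC 13 T1_r221 0 5 (zd a b t) (J5 a b t) ∧ RC 5 T1_r595a 0 13 (zd a b t) (J5 a b t) ∧
  RC 5 T1_r595b 0 13 (zd a b t) (J5 a b t)

lemma rowsB_eq {a b t : ℤ} {k : ((((ℕ × ℕ) × ℕ) × ℕ) × ℕ) × ℕ → Bool}
    (h : rowsB (ds7.map fun δ => (δ, gg 7 T1_r119b 1440 δ, LK.gs 7 T1_r119b δ))
      (ds7.map fun δ => (δ, gg 7 T1_r119a 1440 δ, LK.gs 7 T1_r119a δ))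
      (ds13.map fun δ => (δ, gg 13 T1_r221 1440 δ, LK.gs 13 T1_r221 δ))
      (ds5.map fun δ => (δ, gg 5 T1_r595a 11520 δ, LK.gs 5 T1_r595a δ))
      (ds5.map fun δ => (δ, gg 5 T1_r595b 11520 δ, LK.gs 5 T1_r595b δ)) (c455 a b t) k = true) :
    k (gB a b t) = true ∧ CB a b t := by
  unfold rowsB at h
  rw [wq_eq (c455_5 a b t), wq_eq (c455_7 a b t), wq_eq (c455_13 a b t)] at h
  rw [FK5_eq, FK5_eq, FK5_eq, FK5_eq, forms5_eq (by norm_num), vecA_use, vecA_use] at h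
  obtain ⟨h, C1⟩ := rowA_use (by norm_num) (by norm_num) h
  obtain ⟨h, C2⟩ := rowA_use (by norm_num) (by norm_num) h
  obtain ⟨h, C3⟩ := rowA_use (by norm_num) (by norm_num) h
  obtain ⟨h, C4⟩ := rowA_use (by norm_num) (by norm_num) h
  obtain ⟨h, C5⟩ := rowA_use (by norm_num) (by norm_num) h
  simp only [strict_eq] at h
  exact ⟨h, C1, C2, C3, C4, C5⟩

/-- the code modulo 7735 -/
def c7735 (a b t : ℤ) : ℕ := c455 a b t + 94196375 * cdK 17 (cl 17 a b t)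

theorem stB_spec {a b t : ℤ} (S : Sys a b t) (hc : c455 a b t ∈ S455)
    {lo n : ℕ} (h : stB lo n = true) (ha : lo ≤ rs 17 a) (ha' : rs 17 a < lo + n) :
    c7735 a b t ∈ S7735 := by
  have HJ := J5_ok a b t
  unfold stB at h
  simp only [ggl_eq] at h
  obtain ⟨E, h, hE, C1, C2, C3, C4, C5⟩ := mapC_mem hc (fun k' => rowsB_eq) (fun x _ k' => rowsB_ex) h
  have h := allR_spec h (rs 17 a - lo) (by omega)
  rw [strict_eq] at h
  have ea : Nat.add (rs 17 a - lo) lo = rs 17 a := by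
    change rs 17 a - lo + lo = _
    omega
  rw [ea] at h
  have h := allR_spec h (rs 17 b) (rs_lt b)
  have h := allR_spec h (rs 17 t) (rs_lt t)
  rw [withP5_eq] at h
  have i17 : Nat.beq (Nat.mod (Nat.pow (rs 17 (zd a b t)) (nat_lit 8)) (nat_lit 17)) (nat_lit 16)
    = true := S.i17
  rw [i17] at h
  rw [forms5_eq (by norm_num)] at h
  obtain ⟨h, I1⟩ := vecC_use (by norm_num) h
  obtain ⟨h, I2⟩ := vecC_use (by norm_num) h
  obtain ⟨h, I3⟩ := vecC_use (by norm_num) h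
  obtain ⟨h, I4⟩ := vecC_use (by norm_num) h
  rw [strict_eq] at h
  have h := allQ_spec h _ hE
  have h := cond0_zero (zC_r119b S C1 I1) h
  have h := cond0_zero (zC_r595a S C4 I1) h
  have h := cond0_zero (zC_r595b S C5 I1) h
  have h := cond0_zero (zC_r119a S C2 I1) h
  have h := cond0_zero (zC_r221 S C3 I1) h
  rw [strict_eq] at h
  exact memB_spec h

end Pool.Agent.Lib_helper5.K5
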