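import Pool.Agent.Lib_helper5.K5.FnB

/-!
Stage D: classes modulo 85085.
-/

namespace Pool.Agent.Lib_helper5.K5

open Finset LK Pool.Agent.LibH4 Pool.Agent.LibH4.Ker Pool.Agent.LibH4.T6 Pool.Agent.LibH4.KF

lemma c7735_5 (a b t : ℤ) : c7735 a b t / 1 % (5 * (5 * 5)) = cdK 5 (cl 5 a b t) := by
  have h5 := cdK_lt 5 a b t
  unfold c7735 c455
  rw [Nat.div_one]
  omega

lemma c7735_7 (a b t : ℤ) : c7735 a b t / 125 % (7 * (7 * 7)) = cdK 7 (cl 7 a b t) := by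
  have h5 := cdK_lt 5 a b t
  have h7 := cdK_lt 7 a b t
  unfold c7735 c455
  omega

lemma c7735_13 (a b t : ℤ) : c7735 a b t / 42875 % (13 * (13 * 13)) = cdK 13 (cl 13 a b t) := by
  have h5 := cdK_lt 5 a b t
  have h7 := cdK_lt 7 a b t
  have h13 := cdK_lt 13 a b t
  unfold c7735 c455
  omega

lemma c7735_17 (a b t : ℤ) : c7735 a b t / 94196375 % (17 * (17 * 17)) = cdK 17 (cl 17 a b t) := by
  have h5 := c455_lt a b t
  have h7 := cdK_lt 17 a b t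
  unfold c7735
  omega

lemma c7735_lt (a b t : ℤ) : c7735 a b t < 462786790375 := by
  have h5 := c455_lt a b t
  have h7 := cdK_lt 17 a b t
  unfold c7735
  omega

/-- the rows of a class modulo 7735 -/
def rowsD (Ga Gb Gc Gd : List (ℕ × ℕ × ℕ)) (c : ℕ)
    (k : (((ℕ × ℕ) × ℕ) × ℕ) × ℕ → Bool) : Bool :=
  wq (nat_lit 5) (nat_lit 1) c fun a5 b5 B5 _ _ _ _ _ _ _ =>
  wq (nat_lit 7) (nat_lit 125) c fun a7 b7 B7 _ _ _ _ _ _ _ =>
  wq (nat_lit 13) (nat_lit 42875) c fun _ _ B13 _ _ nm13 nn13 R13 Q13 d13 =>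
  wq (nat_lit 17) (nat_lit 94196375) c fun a17 b17 B17 _ _ nm17 nn17 R17 Q17 d17 =>
  rowA (nat_lit 13) T1_r143a (nat_lit 960) Ga W_r143a Y1_r143a Y0_r143a (nat_lit 0) (nat_lit 5) d13
    (FK5 (nat_lit 13) (nat_lit 5) a5 b5 B5 B13 nm13 nn13 R13 Q13) (nat_lit 0) fun A =>
    strict A fun Aa =>
  rowA (nat_lit 13) T1_r143b (nat_lit 960) Gb W_r143b Y1_r143b Y0_r143b (nat_lit 0) (nat_lit 7) d13
    (FK5 (nat_lit 13) (nat_lit 7) a7 b7 B7 B13 nm13 nn13 R13 Q13) (nat_lit 0) fun A =>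
    strict A fun Ab =>
  rowA (nat_lit 17) T1_r187a (nat_lit 960) Gc W_r187a Y1_r187a Y0_r187a (nat_lit 1) (nat_lit 17) d17
    (FK5 (nat_lit 17) (nat_lit 17) a17 b17 B17 B17 nm17 nn17 R17 Q17) (nat_lit 0) fun A =>
    strict A fun Ac =>
  rowA (nat_lit 17) T1_r187b (nat_lit 960) Gd W_r187b Y1_r187b Y0_r187b (nat_lit 1) (nat_lit 17) d17
    (FK5 (nat_lit 17) (nat_lit 17) a17 b17 B17 B17 nm17 nn17 R17 Q17) (nat_lit 0) fun A =>
    strict A fun Ad =>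
  k ((((c, Ad), Ac), Aa), Ab)

/-- the check -/
def stD (lo n : ℕ) : Bool :=
  ggl (nat_lit 13) T1_r143a (nat_lit 960) ds13 fun Ga =>
  ggl (nat_lit 13) T1_r143b (nat_lit 960) ds13 fun Gb =>
  ggl (nat_lit 17) T1_r187a (nat_lit 960) ds17 fun Gc =>
  ggl (nat_lit 17) T1_r187b (nat_lit 960) ds17 fun Gd =>
  ggl (nat_lit 11) T3_r143a (nat_lit 80) ds11 fun Ha =>
  ggl (nat_lit 11) T3_r143b (nat_lit 80) ds11 fun Hb =>
  ggl (nat_lit 11) T3_r187a (nat_lit 80) ds11 fun Hc =>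
  mapC (rowsD Ga Gb Gc Gd) S7735 fun E =>
  allR (fun aa => strict (Nat.add aa lo) fun a => allR (fun b => allR (fun t =>
   withP5 (nat_lit 11) a b t fun B m m1 nm nm1 R2 R3 d =>
   @Bool.rec (fun _ => Bool) true (
    (fun F : List (ℕ × ℕ × ℕ) =>
     vecC (nat_lit 11) T3_r143a (nat_lit 80) (nat_lit 960) Ha d F fun v => strict v fun va =>
     vecC (nat_lit 11) T3_r143b (nat_lit 80) (nat_lit 960) Hb d F fun v => strict v fun vb =>
     vecC (nat_lit 11) T3_r187a (nat_lit 80) (nat_lit 960) Hc d F fun v => strict v fun vc =>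
     strict (Nat.mul (nat_lit 462786790375) (cdK (nat_lit 11) (a, b, t))) fun c11 =>
     allQ (fun x => cond0 (ip (nat_lit 7) (nat_lit 3760) x.2 vb)
       (cond0 (ip (nat_lit 5) (nat_lit 3760) x.1.2 va)
       (cond0 (ip (nat_lit 4913) (nat_lit 3760) x.1.1.2 vc)
       (cond0 (ip (nat_lit 4913) (nat_lit 3760) x.1.1.1.2 vc)
       (strict (Nat.add x.1.1.1.1 c11) fun c => memB c S85085))))) E)
    (forms5 (nat_lit 11) B m m1 nm nm1 R2 R3))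
   (Nat.beq (Nat.mod (Nat.pow d (nat_lit 5)) (nat_lit 11)) (nat_lit 10)))
   (nat_lit 11)) (nat_lit 11)) n

lemma rowsD_ex {c : ℕ} {k : (((ℕ × ℕ) × ℕ) × ℕ) × ℕ → Bool}
    (h : rowsD (ds13.map fun δ => (δ, gg 13 T1_r143a 960 δ, LK.gs 13 T1_r143a δ))
      (ds13.map fun δ => (δ, gg 13 T1_r143b 960 δ, LK.gs 13 T1_r143b δ))
      (ds17.map fun δ => (δ, gg 17 T1_r187a 960 δ, LK.gs 17 T1_r187a δ))
      (ds17.map fun δ => (δ, gg 17 T1_r187b 960 δ, LK.gs 17 T1_r187b δ)) c k = true) :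
    ∃ y, k y = true := by
  unfold rowsD at h
  obtain ⟨_, _, _, _, _, _, _, _, _, _, h⟩ := wq_ex h
  obtain ⟨_, _, _, _, _, _, _, _, _, _, h⟩ := wq_ex h
  obtain ⟨_, _, _, _, _, _, _, _, _, _, h⟩ := wq_ex h
  obtain ⟨_, _, _, _, _, _, _, _, _, _, h⟩ := wq_ex h
  obtain ⟨_, h⟩ := rowA_ex (by norm_num) (by norm_num) h
  obtain ⟨_, h⟩ := rowA_ex (by norm_num) (by norm_num) h
  obtain ⟨_, h⟩ := rowA_ex (by norm_num) (by norm_num) h
  obtain ⟨_, h⟩ := rowA_ex (by norm_num) (by norm_num) h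
  exact ⟨_, h⟩

/-- the value of the rows -/
def gD (a b t : ℤ) : (((ℕ × ℕ) × ℕ) × ℕ) × ℕ :=
  ((((c7735 a b t,
    RA 17 T1_r187b 960 W_r187b Y1_r187b Y0_r187b 17 (zd a b t) (J5 a b t)),
    RA 17 T1_r187a 960 W_r187a Y1_r187a Y0_r187a 17 (zd a b t) (J5 a b t)),
    RA 13 T1_r143a 960 W_r143a Y1_r143a Y0_r143a 5 (zd a b t) (J5 a b t)),
    RA 13 T1_r143b 960 W_r143b Y1_r143b Y0_r143b 7 (zd a b t) (J5 a b t))

/-- the conditions of the rows -/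
def CD (a b t : ℤ) : Prop :=
  RC 13 T1_r143a 0 5 (zd a b t) (J5 a b t) ∧ RC 13 T1_r143b 0 7 (zd a b t) (J5 a b t) ∧
  RC 17 T1_r187a 1 17 (zd a b t) (J5 a b t) ∧ RC 17 T1_r187b 1 17 (zd a b t) (J5 a b t)

lemma rowsD_eq {a b t : ℤ} {k : (((ℕ × ℕ) × ℕ) × ℕ) × ℕ → Bool}
    (h : rowsD (ds13.map fun δ => (δ, gg 13 T1_r143a 960 δ, LK.gs 13 T1_r143a δ))
      (ds13.map fun δ => (δ, gg 13 T1_r143b 960 δ, LK.gs 13 T1_r143b δ))
      (ds17.map fun δ => (δ, gg 17 T1_r187a 960 δ, LK.gs 17 T1_r187a δ))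
      (ds17.map fun δ => (δ, gg 17 T1_r187b 960 δ, LK.gs 17 T1_r187b δ)) (c7735 a b t) k = true) :
    k (gD a b t) = true ∧ CD a b t := by
  unfold rowsD at h
  rw [wq_eq (c7735_5 a b t), wq_eq (c7735_7 a b t), wq_eq (c7735_13 a b t),
    wq_eq (c7735_17 a b t)] at h
  rw [FK5_eq, FK5_eq, FK5_eq] at h
  obtain ⟨h, C1⟩ := rowA_use (by norm_num) (by norm_num) h
  obtain ⟨h, C2⟩ := rowA_use (by norm_num) (by norm_num) h
  obtain ⟨h, C3⟩ := rowA_use (by norm_num) (by norm_num) h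
  obtain ⟨h, C4⟩ := rowA_use (by norm_num) (by norm_num) h
  exact ⟨h, C1, C2, C3, C4⟩

/-- the code modulo 85085 -/
def c85085 (a b t : ℤ) : ℕ := c7735 a b t + 462786790375 * cdK 11 (cl 11 a b t)

theorem stD_spec {a b t : ℤ} (S : Sys a b t) (hc : c7735 a b t ∈ S7735)
    {lo n : ℕ} (h : stD lo n = true) (ha : lo ≤ rs 11 a) (ha' : rs 11 a < lo + n) :
    c85085 a b t ∈ S85085 := by
  have HJ := J5_ok a b t
  unfold stD at h
  simp only [ggl_eq] at h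
  obtain ⟨E, h, hE, C1, C2, C3, C4⟩ := mapC_mem hc (fun k' => rowsD_eq) (fun x _ k' => rowsD_ex) h
  have h := allR_spec h (rs 11 a - lo) (by omega)
  rw [strict_eq] at h
  have ea : Nat.add (rs 11 a - lo) lo = rs 11 a := by
    change rs 11 a - lo + lo = _
    omega
  rw [ea] at h
  have h := allR_spec h (rs 11 b) (rs_lt b)
  have h := allR_spec h (rs 11 t) (rs_lt t)
  rw [withP5_eq] at h
  have i11 : Nat.beq (Nat.mod (Nat.pow (rs 11 (zd a b t)) (nat_lit 5)) (nat_lit 11)) (nat_lit 10)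
    = true := S.i11
  rw [i11] at h
  rw [forms5_eq (by norm_num)] at h
  obtain ⟨h, I1⟩ := vecC_use (by norm_num) h
  obtain ⟨h, I2⟩ := vecC_use (by norm_num) h
  obtain ⟨h, I3⟩ := vecC_use (by norm_num) h
  rw [strict_eq] at h
  have h := allQ_spec h _ hE
  have h := cond0_zero (zC_r143b S C2 I1) h
  have h := cond0_zero (zC_r143a S C1 I1) h
  have h := cond0_zero (zC_r187a S C3 I1) h
  have h := cond0_zero (zC_r187b S C4 I1) h
  rw [strict_eq] at h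
  exact memB_spec h

end Pool.Agent.Lib_helper5.K5
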