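import Pool.Agent.Lib_helper5.K5.FnD

/-!
Stage E: no class is left.
-/

namespace Pool.Agent.Lib_helper5.K5

open Finset LK Pool.Agent.LibH4 Pool.Agent.LibH4.Ker Pool.Agent.LibH4.T6 Pool.Agent.LibH4.KF

lemma c85085_5 (a b t : ℤ) : c85085 a b t / 1 % (5 * (5 * 5)) = cdK 5 (cl 5 a b t) := by
  have h5 := cdK_lt 5 a b t
  unfold c85085 c7735 c455
  rw [Nat.div_one]
  omega

lemma c85085_7 (a b t : ℤ) : c85085 a b t / 125 % (7 * (7 * 7)) = cdK 7 (cl 7 a b t) := by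
  have h5 := cdK_lt 5 a b t
  have h7 := cdK_lt 7 a b t
  unfold c85085 c7735 c455
  omega

lemma c85085_13 (a b t : ℤ) : c85085 a b t / 42875 % (13 * (13 * 13)) = cdK 13 (cl 13 a b t) := by
  have h5 := cdK_lt 5 a b t
  have h7 := cdK_lt 7 a b t
  have h13 := cdK_lt 13 a b t
  unfold c85085 c7735 c455
  omega

lemma c85085_17 (a b t : ℤ) : c85085 a b t / 94196375 % (17 * (17 * 17)) =
    cdK 17 (cl 17 a b t) := by
  have h5 := c455_lt a b t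
  have h7 := cdK_lt 17 a b t
  unfold c85085 c7735
  omega

/-- the rows of a class modulo 85085 -/
def rowsE (Ga Gb Gc Gd Ge Gf : List (ℕ × ℕ × ℕ)) (c : ℕ)
    (k : (((((ℕ × ℕ) × ℕ) × ℕ) × ℕ) × ℕ) × ℕ → Bool) : Bool :=
  wq (nat_lit 5) (nat_lit 1) c fun _ _ B5 _ _ nm5 nn5 R5 Q5 d5 =>
  wq (nat_lit 7) (nat_lit 125) c fun a7 b7 B7 _ _ nm7 nn7 R7 Q7 d7 =>
  wq (nat_lit 13) (nat_lit 42875) c fun a13 b13 B13 _ _ nm13 nn13 R13 Q13 d13 =>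
  wq (nat_lit 17) (nat_lit 94196375) c fun _ _ B17 _ _ nm17 nn17 R17 Q17 d17 =>
  rowA (nat_lit 5) T1_r95 (nat_lit 1600) Ga W_r95 Y1_r95 Y0_r95 (nat_lit 0) (nat_lit 13) d5
    (FK5 (nat_lit 5) (nat_lit 13) a13 b13 B13 B5 nm5 nn5 R5 Q5) (nat_lit 0) fun A =>
    strict A fun Aa =>
  rowA (nat_lit 7) T1_r133 (nat_lit 1600) Gb W_r133 Y1_r133 Y0_r133 (nat_lit 0) (nat_lit 13) d7
    (FK5 (nat_lit 7) (nat_lit 13) a13 b13 B13 B7 nm7 nn7 R7 Q7) (nat_lit 0) fun A =>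
    strict A fun Ab =>
  rowA (nat_lit 13) T1_r247a (nat_lit 1600) Gc W_r247a Y1_r247a Y0_r247a (nat_lit 0) (nat_lit 7) d13
    (FK5 (nat_lit 13) (nat_lit 7) a7 b7 B7 B13 nm13 nn13 R13 Q13) (nat_lit 0) fun A =>
    strict A fun Ac =>
  rowA (nat_lit 13) T1_r247b (nat_lit 1600) Gd W_r247b Y1_r247b Y0_r247b (nat_lit 0) (nat_lit 7) d13
    (FK5 (nat_lit 13) (nat_lit 7) a7 b7 B7 B13 nm13 nn13 R13 Q13) (nat_lit 0) fun A =>
    strict A fun Ad =>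
  rowA (nat_lit 17) T1_r323a (nat_lit 1600) Ge W_r323a Y1_r323a Y0_r323a (nat_lit 0) (nat_lit 7) d17
    (FK5 (nat_lit 17) (nat_lit 7) a7 b7 B7 B17 nm17 nn17 R17 Q17) (nat_lit 0) fun A =>
    strict A fun Ae =>
  rowA (nat_lit 17) T1_r323b (nat_lit 1600) Gf W_r323b Y1_r323b Y0_r323b (nat_lit 0) (nat_lit 13)
    d17 (FK5 (nat_lit 17) (nat_lit 13) a13 b13 B13 B17 nm17 nn17 R17 Q17) (nat_lit 0) fun A =>
    strict A fun Af =>
  k ((((((c, Af), Ae), Ad), Ac), Ab), Aa)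

/-- the check -/
def stE (lo n : ℕ) : Bool :=
  ggl (nat_lit 5) T1_r95 (nat_lit 1600) ds5 fun Ga =>
  ggl (nat_lit 7) T1_r133 (nat_lit 1600) ds7 fun Gb =>
  ggl (nat_lit 13) T1_r247a (nat_lit 1600) ds13 fun Gc =>
  ggl (nat_lit 13) T1_r247b (nat_lit 1600) ds13 fun Gd =>
  ggl (nat_lit 17) T1_r323a (nat_lit 1600) ds17 fun Ge =>
  ggl (nat_lit 17) T1_r323b (nat_lit 1600) ds17 fun Gf =>
  ggl (nat_lit 19) T3_r95 (nat_lit 80) ds19 fun Ha =>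
  ggl (nat_lit 19) T3_r247a (nat_lit 80) ds19 fun Hc =>
  ggl (nat_lit 19) T3_r323b (nat_lit 80) ds19 fun Hf =>
  mapC (rowsE Ga Gb Gc Gd Ge Gf) S85085 fun E =>
  allR (fun aa => strict (Nat.add aa lo) fun a => allR (fun b => allR (fun t =>
   withP5 (nat_lit 19) a b t fun B m m1 nm nm1 R2 R3 d =>
   @Bool.rec (fun _ => Bool) true (
    (fun F : List (ℕ × ℕ × ℕ) =>
     vecC (nat_lit 19) T3_r95 (nat_lit 80) (nat_lit 1600) Ha d F fun v => strict v fun va =>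
     vecC (nat_lit 19) T3_r247a (nat_lit 80) (nat_lit 1600) Hc d F fun v => strict v fun vc =>
     vecC (nat_lit 19) T3_r323b (nat_lit 80) (nat_lit 1600) Hf d F fun v => strict v fun vf =>
     allQ (fun x => cond0 (ip (nat_lit 13) (nat_lit 6320) x.2 va)
       (cond0 (ip (nat_lit 13) (nat_lit 6320) x.1.2 va)
       (cond0 (ip (nat_lit 7) (nat_lit 6320) x.1.1.2 vc)
       (cond0 (ip (nat_lit 7) (nat_lit 6320) x.1.1.1.2 vc)
       (cond0 (ip (nat_lit 7) (nat_lit 6320) x.1.1.1.1.2 vc)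
       (cond0 (ip (nat_lit 13) (nat_lit 6320) x.1.1.1.1.1.2 vf) false)))))) E)
    (forms5 (nat_lit 19) B m m1 nm nm1 R2 R3))
   (Nat.beq (Nat.mod (Nat.pow d (nat_lit 9)) (nat_lit 19)) (nat_lit 18)))
   (nat_lit 19)) (nat_lit 19)) n

lemma rowsE_ex {c : ℕ} {k : (((((ℕ × ℕ) × ℕ) × ℕ) × ℕ) × ℕ) × ℕ → Bool}
    (h : rowsE (ds5.map fun δ => (δ, gg 5 T1_r95 1600 δ, LK.gs 5 T1_r95 δ))
      (ds7.map fun δ => (δ, gg 7 T1_r133 1600 δ, LK.gs 7 T1_r133 δ))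
      (ds13.map fun δ => (δ, gg 13 T1_r247a 1600 δ, LK.gs 13 T1_r247a δ))
      (ds13.map fun δ => (δ, gg 13 T1_r247b 1600 δ, LK.gs 13 T1_r247b δ))
      (ds17.map fun δ => (δ, gg 17 T1_r323a 1600 δ, LK.gs 17 T1_r323a δ))
      (ds17.map fun δ => (δ, gg 17 T1_r323b 1600 δ, LK.gs 17 T1_r323b δ)) c k = true) :
    ∃ y, k y = true := by
  unfold rowsE at h
  obtain ⟨_, _, _, _, _, _, _, _, _, _, h⟩ := wq_ex h
  obtain ⟨_, _, _, _, _, _, _, _, _, _, h⟩ := wq_ex h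
  obtain ⟨_, _, _, _, _, _, _, _, _, _, h⟩ := wq_ex h
  obtain ⟨_, _, _, _, _, _, _, _, _, _, h⟩ := wq_ex h
  obtain ⟨_, h⟩ := rowA_ex (by norm_num) (by norm_num) h
  obtain ⟨_, h⟩ := rowA_ex (by norm_num) (by norm_num) h
  obtain ⟨_, h⟩ := rowA_ex (by norm_num) (by norm_num) h
  obtain ⟨_, h⟩ := rowA_ex (by norm_num) (by norm_num) h
  obtain ⟨_, h⟩ := rowA_ex (by norm_num) (by norm_num) h
  obtain ⟨_, h⟩ := rowA_ex (by norm_num) (by norm_num) h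
  exact ⟨_, h⟩

/-- the value of the rows -/
def gE (a b t : ℤ) : (((((ℕ × ℕ) × ℕ) × ℕ) × ℕ) × ℕ) × ℕ :=
  ((((((c85085 a b t,
    RA 17 T1_r323b 1600 W_r323b Y1_r323b Y0_r323b 13 (zd a b t) (J5 a b t)),
    RA 17 T1_r323a 1600 W_r323a Y1_r323a Y0_r323a 7 (zd a b t) (J5 a b t)),
    RA 13 T1_r247b 1600 W_r247b Y1_r247b Y0_r247b 7 (zd a b t) (J5 a b t)),
    RA 13 T1_r247a 1600 W_r247a Y1_r247a Y0_r247a 7 (zd a b t) (J5 a b t)),
    RA 7 T1_r133 1600 W_r133 Y1_r133 Y0_r133 13 (zd a b t) (J5 a b t)),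
    RA 5 T1_r95 1600 W_r95 Y1_r95 Y0_r95 13 (zd a b t) (J5 a b t))

/-- the conditions of the rows -/
def CE (a b t : ℤ) : Prop :=
  RC 5 T1_r95 0 13 (zd a b t) (J5 a b t) ∧ RC 7 T1_r133 0 13 (zd a b t) (J5 a b t) ∧
  RC 13 T1_r247a 0 7 (zd a b t) (J5 a b t) ∧ RC 13 T1_r247b 0 7 (zd a b t) (J5 a b t) ∧
  RC 17 T1_r323a 0 7 (zd a b t) (J5 a b t) ∧ RC 17 T1_r323b 0 13 (zd a b t) (J5 a b t)

lemma rowsE_eq {a b t : ℤ} {k : (((((ℕ × ℕ) × ℕ) × ℕ) × ℕ) × ℕ) × ℕ → Bool}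
    (h : rowsE (ds5.map fun δ => (δ, gg 5 T1_r95 1600 δ, LK.gs 5 T1_r95 δ))
      (ds7.map fun δ => (δ, gg 7 T1_r133 1600 δ, LK.gs 7 T1_r133 δ))
      (ds13.map fun δ => (δ, gg 13 T1_r247a 1600 δ, LK.gs 13 T1_r247a δ))
      (ds13.map fun δ => (δ, gg 13 T1_r247b 1600 δ, LK.gs 13 T1_r247b δ))
      (ds17.map fun δ => (δ, gg 17 T1_r323a 1600 δ, LK.gs 17 T1_r323a δ))
      (ds17.map fun δ => (δ, gg 17 T1_r323b 1600 δ, LK.gs 17 T1_r323b δ)) (c85085 a b t) k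
        = true) : k (gE a b t) = true ∧ CE a b t := by
  unfold rowsE at h
  rw [wq_eq (c85085_5 a b t), wq_eq (c85085_7 a b t), wq_eq (c85085_13 a b t),
    wq_eq (c85085_17 a b t)] at h
  rw [FK5_eq, FK5_eq, FK5_eq, FK5_eq, FK5_eq] at h
  obtain ⟨h, C1⟩ := rowA_use (by norm_num) (by norm_num) h
  obtain ⟨h, C2⟩ := rowA_use (by norm_num) (by norm_num) h
  obtain ⟨h, C3⟩ := rowA_use (by norm_num) (by norm_num) h
  obtain ⟨h, C4⟩ := rowA_use (by norm_num) (by norm_num) h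
  obtain ⟨h, C5⟩ := rowA_use (by norm_num) (by norm_num) h
  obtain ⟨h, C6⟩ := rowA_use (by norm_num) (by norm_num) h
  exact ⟨h, C1, C2, C3, C4, C5, C6⟩

theorem stE_spec {a b t : ℤ} (S : Sys a b t) (hc : c85085 a b t ∈ S85085)
    {lo n : ℕ} (h : stE lo n = true) (ha : lo ≤ rs 19 a) (ha' : rs 19 a < lo + n) : False := by
  have HJ := J5_ok a b t
  unfold stE at h
  simp only [ggl_eq] at h
  obtain ⟨E, h, hE, C1, C2, C3, C4, C5, C6⟩ :=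
    mapC_mem hc (fun k' => rowsE_eq) (fun x _ k' => rowsE_ex) h
  have h := allR_spec h (rs 19 a - lo) (by omega)
  rw [strict_eq] at h
  have ea : Nat.add (rs 19 a - lo) lo = rs 19 a := by
    change rs 19 a - lo + lo = _
    omega
  rw [ea] at h
  have h := allR_spec h (rs 19 b) (rs_lt b)
  have h := allR_spec h (rs 19 t) (rs_lt t)
  rw [withP5_eq] at h
  have i19 : Nat.beq (Nat.mod (Nat.pow (rs 19 (zd a b t)) (nat_lit 9)) (nat_lit 19)) (nat_lit 18)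
    = true := S.i19
  rw [i19] at h
  rw [forms5_eq (by norm_num)] at h
  obtain ⟨h, I1⟩ := vecC_use (by norm_num) h
  obtain ⟨h, I2⟩ := vecC_use (by norm_num) h
  obtain ⟨h, I3⟩ := vecC_use (by norm_num) h
  have h := allQ_spec h _ hE
  have h := cond0_zero (zC_r95 S C1 I1) h
  have h := cond0_zero (zC_r133 S C2 I1) h
  have h := cond0_zero (zC_r247a S C3 I1) h
  have h := cond0_zero (zC_r247b S C4 I1) h
  have h := cond0_zero (zC_r323a S C5 I1) h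
  have h := cond0_zero (zC_r323b S C6 I1) h
  exact absurd h (by simp)

end Pool.Agent.Lib_helper5.K5
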