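import Pool.Agent.Lib_helper5.K5.FnA

/-!
The classes modulo 5 and 7.
-/

namespace Pool.Agent.Lib_helper5.K5

open Finset LK Pool.Agent.LibH4 Pool.Agent.LibH4.Ker Pool.Agent.LibH4.T6 Pool.Agent.LibH4.KF

/-- membership of a triple -/
def memT (c : ℕ × ℕ × ℕ) (L : List (ℕ × ℕ × ℕ)) : Bool :=
  @List.rec (ℕ × ℕ × ℕ) (fun _ => Bool) false (fun x _ ih =>
    @Bool.rec (fun _ => Bool) ih true (@Bool.rec (fun _ => Bool) false
      (@Bool.rec (fun _ => Bool) false (Nat.beq x.1 c.1) (Nat.beq x.2.1 c.2.1))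
      (Nat.beq x.2.2 c.2.2))) L

lemma memT_spec {c : ℕ × ℕ × ℕ} {L : List (ℕ × ℕ × ℕ)} (h : memT c L = true) : c ∈ L := by
  induction L with
  | nil => exact absurd h (by simp [memT])
  | cons x L ih =>
    have h' : @Bool.rec (fun _ => Bool) (memT c L) true (@Bool.rec (fun _ => Bool) false
      (@Bool.rec (fun _ => Bool) false (Nat.beq x.1 c.1) (Nat.beq x.2.1 c.2.1))
      (Nat.beq x.2.2 c.2.2)) = true := h
    cases hb : (@Bool.rec (fun _ => Bool) false
      (@Bool.rec (fun _ => Bool) false (Nat.beq x.1 c.1) (Nat.beq x.2.1 c.2.1))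
      (Nat.beq x.2.2 c.2.2)) with
    | false => rw [hb] at h'; simp [ih h']
    | true =>
      obtain ⟨h1, h2⟩ := boolrec_spec hb
      obtain ⟨h3, h4⟩ := boolrec_spec h2
      have e1 := Nat.eq_of_beq_eq_true h1
      have e2 := Nat.eq_of_beq_eq_true h3
      have e3 := Nat.eq_of_beq_eq_true h4
      have : c = x := Prod.ext e3.symm (Prod.ext e2.symm e1.symm)
      simp [this]

/-- all inert classes are in the list -/
def ckD (p e : ℕ) (D : List (ℕ × ℕ × ℕ)) : Bool :=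
  allR (fun a => allR (fun b => allR (fun t => withP5 p a b t fun _ _ _ _ _ _ _ d =>
    @Bool.rec (fun _ => Bool) true (memT (a, b, t) D)
      (Nat.beq (Nat.mod (Nat.pow d e) p) (Nat.sub p (nat_lit 1)))) p) p) p

/-- all inert classes are in the list up to sign -/
def ckD' (p e : ℕ) (D : List (ℕ × ℕ × ℕ)) : Bool :=
  allR (fun a => allR (fun b => allR (fun t => withP5 p a b t fun _ _ _ _ _ _ _ d =>
    @Bool.rec (fun _ => Bool) true (@Bool.rec (fun _ => Bool)
      (memT (Nat.mod (Nat.sub p a) p, Nat.mod (Nat.sub p b) p, Nat.mod (Nat.sub p t) p) D)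
      true (memT (a, b, t) D))
      (Nat.beq (Nat.mod (Nat.pow d e) p) (Nat.sub p (nat_lit 1)))) p) p) p

lemma rs_neg {p : ℕ} [NeZero p] (x : ℤ) : Nat.mod (Nat.sub p (rs p x)) p = rs p (-x) := by
  change (p - rs p x) % p = _
  apply rs_of
  rw [Nat.cast_sub (rs_lt x).le, rs_cast]
  push_cast
  simp

lemma ckD_spec {p e : ℕ} [NeZero p] {D : List (ℕ × ℕ × ℕ)} (h : ckD p e D = true)
    {a b t : ℤ} (hi : Nat.beq (Nat.mod (Nat.pow (rs p (zd a b t)) e) p) (Nat.sub p (nat_lit 1)) =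
      true) : cl p a b t ∈ D := by
  have h1 := allR_spec (allR_spec (allR_spec h (rs p a) (rs_lt a)) (rs p b) (rs_lt b))
    (rs p t) (rs_lt t)
  rw [withP5_eq, hi] at h1
  exact memT_spec h1

lemma ckD'_spec {p e : ℕ} [NeZero p] {D : List (ℕ × ℕ × ℕ)} (h : ckD' p e D = true)
    {a b t : ℤ} (hi : Nat.beq (Nat.mod (Nat.pow (rs p (zd a b t)) e) p) (Nat.sub p (nat_lit 1)) =
      true) : cl p a b t ∈ D ∨ cl p (-a) (-b) (-t) ∈ D := by
  have h1 := allR_spec (allR_spec (allR_spec h (rs p a) (rs_lt a)) (rs p b) (rs_lt b))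
    (rs p t) (rs_lt t)
  rw [withP5_eq, hi, rs_neg, rs_neg, rs_neg] at h1
  have h2 : @Bool.rec (fun _ => Bool) (memT (cl p (-a) (-b) (-t)) D) true
    (memT (cl p a b t) D) = true := h1
  cases hb : memT (cl p a b t) D with
  | false => rw [hb] at h2; exact Or.inr (memT_spec h2)
  | true => exact Or.inl (memT_spec hb)

lemma ckD5 : ckD (nat_lit 5) (nat_lit 2) D5 = true := by decide +kernel

lemma ckD7 : ckD' (nat_lit 7) (nat_lit 3) D7 = true := by decide +kernel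

lemma mem_D5 {a b t : ℤ} (S : Sys a b t) : cl 5 a b t ∈ D5 := ckD_spec ckD5 S.i5

lemma mem_D7 {a b t : ℤ} (S : Sys a b t) : cl 7 a b t ∈ D7 ∨ cl 7 (-a) (-b) (-t) ∈ D7 :=
  ckD'_spec ckD7 S.i7

end Pool.Agent.Lib_helper5.K5
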