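import Pool.Agent.Lib_helper5.P5Rel
import Pool.Agent.Lib_helper5.K5.Cls

/-!
The system of conditions on the parameters of the family of period five.
-/

namespace Pool.Agent.Lib_helper5.K5

open Finset LK Pool.Agent.LibH4 Pool.Agent.LibH4.Ker Pool.Agent.LibH4.T6 Pool.Agent.LibH4.KF

/-- all relations -/
def AllRel (a b t : ℤ) : Prop :=
  ∀ (n1 n2 n3 N T1 T2 T3 : ℕ) [NeZero n1] [NeZero n2] [NeZero n3] [NeZero (n1 * n2)]
    [NeZero (n1 * n2 * n3)], relOk n1 n2 n3 N T1 T2 T3 = true → tabCk n1 N T1 = true →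
    tabCk n2 N T2 = true → tabCk n3 N T3 = true →
    (n1 * n2 * n3 * N) ∣ (5 * 7 * 11 * 13 * 17 * 19) ^ 6 →
    LK.Rel N (tri (tabc n1 N T1) (tabc n2 N T2) (tabc n3 N T3)) (J5 a b t)

/-- the system of conditions -/
structure Sys (a b t : ℤ) : Prop where
  i5 : In 5 (zd a b t)
  i7 : In 7 (zd a b t)
  i11 : In 11 (zd a b t)
  i13 : In 13 (zd a b t)
  i17 : In 17 (zd a b t)
  i19 : In 19 (zd a b t)
  rel : AllRel a b t

lemma Sys.neg {a b t : ℤ} (h : Sys a b t) : Sys (-a) (-b) (-t) where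
  i5 := by rw [zd_neg]; exact h.i5
  i7 := by rw [zd_neg]; exact h.i7
  i11 := by rw [zd_neg]; exact h.i11
  i13 := by rw [zd_neg]; exact h.i13
  i17 := by rw [zd_neg]; exact h.i17
  i19 := by rw [zd_neg]; exact h.i19
  rel := fun n1 n2 n3 N T1 T2 T3 _ _ _ _ _ h1 h2 h3 h4 h5 =>
    Rel_neg _ (h.rel n1 n2 n3 N T1 T2 T3 h1 h2 h3 h4 h5)

/-- meaning of `relOk` -/
lemma relOk_spec {n1 n2 n3 N T1 T2 T3 : ℕ} [NeZero n1] [NeZero n2] [NeZero n3]
    [NeZero (n1 * n2)] [NeZero (n1 * n2 * n3)] (hN : 0 < N)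
    (h : relOk n1 n2 n3 N T1 T2 T3 = true) (h1 : tabCk n1 N T1 = true)
    (h2 : tabCk n2 N T2 = true) (h3 : tabCk n3 N T3 = true) :
    (∀ x, tri (tabc n1 N T1) (tabc n2 N T2) (tabc n3 N T3) (-x) =
      - tri (tabc n1 N T1) (tabc n2 N T2) (tabc n3 N T3) x) ∧
    (∑ u ∈ range (n1 * n2 * n3), (u : ZMod N) *
      tri (tabc n1 N T1) (tabc n2 N T2) (tabc n3 N T3) (u : ZMod (n1 * n2 * n3))) *
      ((n1 * n2 * n3 : ℕ) : ZMod N) = 0 := by
  unfold relOk at h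
  rw [strict_eq] at h
  obtain ⟨ha, hb⟩ := andB_spec h
  have hc := tri_char (n1 := n1) (n2 := n2) (n3 := n3) (tabCk_char h1) (tabCk_char h2)
    (tabCk_char h3)
  have hq : 0 < n1 * n2 * n3 := Nat.pos_of_ne_zero (NeZero.ne _)
  have hNe : NeZero N := ⟨hN.ne'⟩
  refine ⟨?_, ?_⟩
  · have e1 : chi3 n1 n2 n3 N T1 T2 T3 (n1 * n2 * n3 - 1) = N - 1 := Nat.eq_of_beq_eq_true ha
    have e2 := congrArg (fun x : ℕ => (x : ZMod N)) e1
    simp only [chi3_cast] at e2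
    rw [K5.cast_pred, K5.cast_pred] at e2
    intro x
    have : -x = (-1) * x := by ring
    rw [this, hc.mul, e2]
    ring
  · have e1 : (sumR (fun u => u * chi3 n1 n2 n3 N T1 T2 T3 u) (n1 * n2 * n3)) * (n1 * n2 * n3) % N
      = 0 := Nat.eq_of_beq_eq_true hb
    have e2 := congrArg (fun x : ℕ => (x : ZMod N)) e1
    simp only [ZMod.natCast_mod] at e2
    rw [sumR_eq, Nat.cast_mul, Nat.cast_sum] at e2
    rw [Nat.cast_zero] at e2
    rw [← e2]
    congr 1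
    apply Finset.sum_congr rfl
    intro u _
    rw [Nat.cast_mul, chi3_cast]

lemma sys_of {a b B : ℕ} {m m' : ℤ} (h : E5.Par a b B m m') (hm2 : m % 2 = 1) (hB2 : B % 2 = 1)
    [IsDomain (QuadraticAlgebra ℤ m (B : ℤ))]
    [UniqueFactorizationMonoid (QuadraticAlgebra ℤ m (B : ℤ))] (hpm : 19 < m) (hpm' : 19 < m') :
    ∃ t : ℤ, Sys a b t := by
  obtain ⟨t, hB, hm, hm1⟩ := exists_t h
  refine ⟨t, ?_⟩
  obtain ⟨d, hd⟩ : ∃ d : ℕ, (d : ℤ) = (B : ℤ) ^ 2 + 4 * m := by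
    refine ⟨((B : ℤ) ^ 2 + 4 * m).toNat, Int.toNat_of_nonneg ?_⟩
    have : (0 : ℤ) ≤ (B : ℤ) ^ 2 := sq_nonneg _
    omega
  have h8 : d % 8 = 5 := by
    obtain ⟨j, hj⟩ : ∃ j : ℤ, (B : ℤ) = 2 * j + 1 := ⟨(B : ℤ) / 2, by omega⟩
    obtain ⟨i, hi⟩ : ∃ i : ℤ, m = 2 * i + 1 := ⟨m / 2, by omega⟩
    have e : (d : ℤ) = 4 * (j * (j + 1)) + 8 * i + 5 := by rw [hd, hj, hi]; ring
    obtain ⟨k, hk⟩ : ∃ k : ℤ, j * (j + 1) = 2 * k := by
      have := Int.even_mul_succ_self j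
      obtain ⟨k, hk⟩ := this
      exact ⟨k, by omega⟩
    rw [hk] at e
    omega
  have inr : ∀ p : ℕ, p.Prime → p ≠ 2 → (p : ℤ) ≤ 19 → In p (zd a b t) := fun p hp hp2 hle =>
    in_of h hd h8 hB hm hp hp2 (by omega) (by omega)
  have cop : ∀ p : ℕ, p.Prime → p ≠ 2 → (p : ℤ) ≤ 19 → Nat.Coprime d p := by
    intro p hp hp2 hle
    have h1 := E5.inert h hd h8 p hp hp2 (by omega) (by omega)
    have h2 : jacobiSym (d : ℤ) p ≠ 0 := by rw [h1]; norm_num
    rw [Nat.coprime_comm, Nat.Prime.coprime_iff_not_dvd hp]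
    intro hdvd
    apply h2
    have : Fact p.Prime := ⟨hp⟩
    rw [← jacobiSym.legendreSym.to_jacobiSym, legendreSym.eq_zero_iff]
    have : ((d : ℕ) : ZMod p) = 0 := by rw [ZMod.natCast_eq_zero_iff]; exact hdvd
    exact_mod_cast this
  have hcopP : Nat.Coprime d ((5 * 7 * 11 * 13 * 17 * 19) ^ 6) := by
    apply Nat.Coprime.pow_right
    have c5 := cop 5 (by norm_num) (by norm_num) (by norm_num)
    have c7 := cop 7 (by norm_num) (by norm_num) (by norm_num)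
    have c11 := cop 11 (by norm_num) (by norm_num) (by norm_num)
    have c13 := cop 13 (by norm_num) (by norm_num) (by norm_num)
    have c17 := cop 17 (by norm_num) (by norm_num) (by norm_num)
    have c19 := cop 19 (by norm_num) (by norm_num) (by norm_num)
    exact ((((c5.mul_right c7).mul_right c11).mul_right c13).mul_right c17).mul_right c19
  refine ⟨inr 5 (by norm_num) (by norm_num) (by norm_num), inr 7 (by norm_num) (by norm_num)
    (by norm_num), inr 11 (by norm_num) (by norm_num) (by norm_num), inr 13 (by norm_num)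
    (by norm_num) (by norm_num), inr 17 (by norm_num) (by norm_num) (by norm_num), inr 19
    (by norm_num) (by norm_num) (by norm_num), ?_⟩
  intro n1 n2 n3 N T1 T2 T3 _ _ _ _ _ h1 h2 h3 h4 h5
  have hN : 0 < N := by
    rcases Nat.eq_zero_or_pos N with h0 | h0
    · subst h0
      rw [mul_zero] at h5
      have := Nat.eq_zero_of_zero_dvd h5
      norm_num at this
    · exact h0
  obtain ⟨ho, hs⟩ := relOk_spec hN h1 h2 h3 h4
  have hdq : Nat.Coprime (n1 * n2 * n3) d :=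
    (Nat.Coprime.coprime_dvd_right ((Dvd.intro _ rfl).trans h5) hcopP).symm
  have hdN : Nat.Coprime d N := Nat.Coprime.coprime_dvd_right ((Dvd.intro_left _ rfl).trans h5) hcopP
  have hN2 : N % 2 = 1 := by
    have h6 : N ∣ (5 * 7 * 11 * 13 * 17 * 19) ^ 6 := (Dvd.intro_left _ rfl).trans h5
    rcases Nat.mod_two_eq_zero_or_one N with h7 | h7
    · exfalso
      have : 2 ∣ (5 * 7 * 11 * 13 * 17 * 19) ^ 6 := (Nat.dvd_of_mod_eq_zero h7).trans h6
      norm_num at this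
    · exact h7
  have hc := tri_char (n1 := n1) (n2 := n2) (n3 := n3) (tabCk_char h2) (tabCk_char h3)
    (tabCk_char h4)
  exact rel_of h hm2 hB2 hd h8 hB hm hm1 hdq hN2 hdN _ ho hc.mul hs

end Pool.Agent.Lib_helper5.K5
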