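import Pool.Agent.Lib_helper5.K5.Sys
import Pool.Agent.Lib_helper5.K5.Da
import Pool.Agent.Lib_helper5.K5.Db
import Pool.Agent.Lib_helper5.K5.Dc
import Pool.Agent.Lib_helper5.K5.Dd
import Pool.Agent.Lib_helper5.K5.De

/-! generated: vanishing of the values of the relations -/

namespace Pool.Agent.Lib_helper5.K5

open LK Pool.Agent.LibH4.Ker

/-- direct vectors -/
theorem zB_r91 {a b t : ℤ} (S : Sys a b t) (hC : RC 13 T1_r91 1 13 (zd a b t) (J5 a b t)) :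
    ip 2197 2480 (RA 13 T1_r91 640 W_r91 Y1_r91 Y0_r91 13 (zd a b t) (J5 a b t)) (VB 7 T3_r91 640 L7 (J5 a b t)) = 0 :=
  good_r91.twoB (J5_ok a b t) hC (by decide) (S.rel 13 1 7 2197 T1_r91 T2_r91 T3_r91 rok_r91 tab1_r91 tab2_r91 tab3_r91 (by norm_num)) (K := 4) rfl (by norm_num [BA, L7]) (by simp [L7])

/-- direct vectors -/
theorem zB_r455a {a b t : ℤ} (S : Sys a b t) (hC : RC 13 T1_r455a 1 13 (zd a b t) (J5 a b t)) :
    ip 2197 1840 (red 3840 480 3360 4 (RA 13 T1_r455a 3840 W_r455a Y1_r455a Y0_r455a 13 (zd a b t) (J5 a b t)) (VA 7 T2_r455a 480 3840 L7 (J5 a b t))) (VB 5 T3_r455a 480 L5 (J5 a b t)) = 0 :=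
  good_r455a.threeB (J5_ok a b t) hC (S.rel 13 7 5 2197 T1_r455a T2_r455a T3_r455a rok_r455a tab1_r455a tab2_r455a tab3_r455a (by norm_num)) (K := 4) rfl (by norm_num [BA, L7, L5]) (by simp [L5]) (by simp [L7])

/-- direct vectors -/
theorem zB_r455b {a b t : ℤ} (S : Sys a b t) (hC : RC 13 T1_r455b 1 13 (zd a b t) (J5 a b t)) :
    ip 2197 1840 (red 3840 480 3360 4 (RA 13 T1_r455b 3840 W_r455b Y1_r455b Y0_r455b 13 (zd a b t) (J5 a b t)) (VA 7 T2_r455b 480 3840 L7 (J5 a b t))) (VB 5 T3_r455b 480 L5 (J5 a b t)) = 0 :=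
  good_r455b.threeB (J5_ok a b t) hC (S.rel 13 7 5 2197 T1_r455b T2_r455b T3_r455b rok_r455b tab1_r455b tab2_r455b tab3_r455b (by norm_num)) (K := 4) rfl (by norm_num [BA, L7, L5]) (by simp [L5]) (by simp [L7])

/-- direct vectors -/
theorem zB_r455c {a b t : ℤ} (S : Sys a b t) (hC : RC 13 T1_r455c 1 13 (zd a b t) (J5 a b t)) :
    ip 2197 1840 (red 3840 480 3360 4 (RA 13 T1_r455c 3840 W_r455c Y1_r455c Y0_r455c 13 (zd a b t) (J5 a b t)) (VA 7 T2_r455c 480 3840 L7 (J5 a b t))) (VB 5 T3_r455c 480 L5 (J5 a b t)) = 0 :=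
  good_r455c.threeB (J5_ok a b t) hC (S.rel 13 7 5 2197 T1_r455c T2_r455c T3_r455c rok_r455c tab1_r455c tab2_r455c tab3_r455c (by norm_num)) (K := 4) rfl (by norm_num [BA, L7, L5]) (by simp [L5]) (by simp [L7])

/-- direct vectors -/
theorem zB_r455d {a b t : ℤ} (S : Sys a b t) (hC : RC 13 T1_r455d 1 13 (zd a b t) (J5 a b t)) :
    ip 2197 1840 (red 3840 480 3360 4 (RA 13 T1_r455d 3840 W_r455d Y1_r455d Y0_r455d 13 (zd a b t) (J5 a b t)) (VA 7 T2_r455d 480 3840 L7 (J5 a b t))) (VB 5 T3_r455d 480 L5 (J5 a b t)) = 0 :=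
  good_r455d.threeB (J5_ok a b t) hC (S.rel 13 7 5 2197 T1_r455d T2_r455d T3_r455d rok_r455d tab1_r455d tab2_r455d tab3_r455d (by norm_num)) (K := 4) rfl (by norm_num [BA, L7, L5]) (by simp [L5]) (by simp [L7])

/-- direct vectors -/
theorem zB_r455e {a b t : ℤ} (S : Sys a b t) (hC : RC 13 T1_r455e 1 13 (zd a b t) (J5 a b t)) :
    ip 2197 1840 (red 3840 480 3360 4 (RA 13 T1_r455e 3840 W_r455e Y1_r455e Y0_r455e 13 (zd a b t) (J5 a b t)) (VA 7 T2_r455e 480 3840 L7 (J5 a b t))) (VB 5 T3_r455e 480 L5 (J5 a b t)) = 0 :=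
  good_r455e.threeB (J5_ok a b t) hC (S.rel 13 7 5 2197 T1_r455e T2_r455e T3_r455e rok_r455e tab1_r455e tab2_r455e tab3_r455e (by norm_num)) (K := 4) rfl (by norm_num [BA, L7, L5]) (by simp [L5]) (by simp [L7])

/-- vectors by completing the square -/
theorem zC_r119a {a b t : ℤ} (S : Sys a b t) (hC : RC 7 T1_r119a 0 5 (zd a b t) (J5 a b t))
    (hi : ∀ x ∈ (J5 a b t).map (fkI 17), 2 * x.2.2 * ii 17 x.2.2 % 17 = 1) :
    ip 5 5680 (RA 7 T1_r119a 1440 W_r119a Y1_r119a Y0_r119a 5 (zd a b t) (J5 a b t)) (VC 17 T3_r119a 1440 (zd a b t) (J5 a b t)) = 0 :=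
  (L17_eq ▸ good_r119a).twoC (J5_ok a b t) hC (by decide) (S.rel 7 1 17 5 T1_r119a T2_r119a T3_r119a rok_r119a tab1_r119a tab2_r119a tab3_r119a (by norm_num)) hi (K := 4) rfl (by norm_num [BA]) (by norm_num)

/-- vectors by completing the square -/
theorem zC_r119b {a b t : ℤ} (S : Sys a b t) (hC : RC 7 T1_r119b 0 13 (zd a b t) (J5 a b t))
    (hi : ∀ x ∈ (J5 a b t).map (fkI 17), 2 * x.2.2 * ii 17 x.2.2 % 17 = 1) :
    ip 13 5680 (RA 7 T1_r119b 1440 W_r119b Y1_r119b Y0_r119b 13 (zd a b t) (J5 a b t)) (VC 17 T3_r119b 1440 (zd a b t) (J5 a b t)) = 0 :=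
  (L17_eq ▸ good_r119b).twoC (J5_ok a b t) hC (by decide) (S.rel 7 1 17 13 T1_r119b T2_r119b T3_r119b rok_r119b tab1_r119b tab2_r119b tab3_r119b (by norm_num)) hi (K := 4) rfl (by norm_num [BA]) (by norm_num)

/-- vectors by completing the square -/
theorem zC_r221 {a b t : ℤ} (S : Sys a b t) (hC : RC 13 T1_r221 0 5 (zd a b t) (J5 a b t))
    (hi : ∀ x ∈ (J5 a b t).map (fkI 17), 2 * x.2.2 * ii 17 x.2.2 % 17 = 1) :
    ip 5 5680 (RA 13 T1_r221 1440 W_r221 Y1_r221 Y0_r221 5 (zd a b t) (J5 a b t)) (VC 17 T3_r221 1440 (zd a b t) (J5 a b t)) = 0 :=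
  (L17_eq ▸ good_r221).twoC (J5_ok a b t) hC (by decide) (S.rel 13 1 17 5 T1_r221 T2_r221 T3_r221 rok_r221 tab1_r221 tab2_r221 tab3_r221 (by norm_num)) hi (K := 4) rfl (by norm_num [BA]) (by norm_num)

/-- vectors by completing the square -/
theorem zC_r595a {a b t : ℤ} (S : Sys a b t) (hC : RC 5 T1_r595a 0 13 (zd a b t) (J5 a b t))
    (hi : ∀ x ∈ (J5 a b t).map (fkI 17), 2 * x.2.2 * ii 17 x.2.2 % 17 = 1) :
    ip 13 5680 (red 11520 1440 10080 4 (RA 5 T1_r595a 11520 W_r595a Y1_r595a Y0_r595a 13 (zd a b t) (J5 a b t)) (VA 7 T2_r595a 1440 11520 L7 (J5 a b t))) (VC 17 T3_r595a 1440 (zd a b t) (J5 a b t)) = 0 :=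
  (L17_eq ▸ good_r595a).threeC (J5_ok a b t) hC (S.rel 5 7 17 13 T1_r595a T2_r595a T3_r595a rok_r595a tab1_r595a tab2_r595a tab3_r595a (by norm_num)) hi (K := 4) rfl (by norm_num [BA, L7]) (by norm_num) (by simp [L7])

/-- vectors by completing the square -/
theorem zC_r595b {a b t : ℤ} (S : Sys a b t) (hC : RC 5 T1_r595b 0 13 (zd a b t) (J5 a b t))
    (hi : ∀ x ∈ (J5 a b t).map (fkI 17), 2 * x.2.2 * ii 17 x.2.2 % 17 = 1) :
    ip 13 5680 (red 11520 1440 10080 4 (RA 5 T1_r595b 11520 W_r595b Y1_r595b Y0_r595b 13 (zd a b t) (J5 a b t)) (VA 7 T2_r595b 1440 11520 L7 (J5 a b t))) (VC 17 T3_r595b 1440 (zd a b t) (J5 a b t)) = 0 :=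
  (L17_eq ▸ good_r595b).threeC (J5_ok a b t) hC (S.rel 5 7 17 13 T1_r595b T2_r595b T3_r595b rok_r595b tab1_r595b tab2_r595b tab3_r595b (by norm_num)) hi (K := 4) rfl (by norm_num [BA, L7]) (by norm_num) (by simp [L7])

/-- vectors by completing the square -/
theorem zC_r143a {a b t : ℤ} (S : Sys a b t) (hC : RC 13 T1_r143a 0 5 (zd a b t) (J5 a b t))
    (hi : ∀ x ∈ (J5 a b t).map (fkI 11), 2 * x.2.2 * ii 11 x.2.2 % 11 = 1) :
    ip 5 3760 (RA 13 T1_r143a 960 W_r143a Y1_r143a Y0_r143a 5 (zd a b t) (J5 a b t)) (VC 11 T3_r143a 960 (zd a b t) (J5 a b t)) = 0 :=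
  (L11_eq ▸ good_r143a).twoC (J5_ok a b t) hC (by decide) (S.rel 13 1 11 5 T1_r143a T2_r143a T3_r143a rok_r143a tab1_r143a tab2_r143a tab3_r143a (by norm_num)) hi (K := 4) rfl (by norm_num [BA]) (by norm_num)

/-- vectors by completing the square -/
theorem zC_r143b {a b t : ℤ} (S : Sys a b t) (hC : RC 13 T1_r143b 0 7 (zd a b t) (J5 a b t))
    (hi : ∀ x ∈ (J5 a b t).map (fkI 11), 2 * x.2.2 * ii 11 x.2.2 % 11 = 1) :
    ip 7 3760 (RA 13 T1_r143b 960 W_r143b Y1_r143b Y0_r143b 7 (zd a b t) (J5 a b t)) (VC 11 T3_r143b 960 (zd a b t) (J5 a b t)) = 0 :=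
  (L11_eq ▸ good_r143b).twoC (J5_ok a b t) hC (by decide) (S.rel 13 1 11 7 T1_r143b T2_r143b T3_r143b rok_r143b tab1_r143b tab2_r143b tab3_r143b (by norm_num)) hi (K := 4) rfl (by norm_num [BA]) (by norm_num)

/-- vectors by completing the square -/
theorem zC_r187a {a b t : ℤ} (S : Sys a b t) (hC : RC 17 T1_r187a 1 17 (zd a b t) (J5 a b t))
    (hi : ∀ x ∈ (J5 a b t).map (fkI 11), 2 * x.2.2 * ii 11 x.2.2 % 11 = 1) :
    ip 4913 3760 (RA 17 T1_r187a 960 W_r187a Y1_r187a Y0_r187a 17 (zd a b t) (J5 a b t)) (VC 11 T3_r187a 960 (zd a b t) (J5 a b t)) = 0 :=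
  (L11_eq ▸ good_r187a).twoC (J5_ok a b t) hC (by decide) (S.rel 17 1 11 4913 T1_r187a T2_r187a T3_r187a rok_r187a tab1_r187a tab2_r187a tab3_r187a (by norm_num)) hi (K := 4) rfl (by norm_num [BA]) (by norm_num)

/-- vectors by completing the square -/
theorem zC_r187b {a b t : ℤ} (S : Sys a b t) (hC : RC 17 T1_r187b 1 17 (zd a b t) (J5 a b t))
    (hi : ∀ x ∈ (J5 a b t).map (fkI 11), 2 * x.2.2 * ii 11 x.2.2 % 11 = 1) :
    ip 4913 3760 (RA 17 T1_r187b 960 W_r187b Y1_r187b Y0_r187b 17 (zd a b t) (J5 a b t)) (VC 11 T3_r187b 960 (zd a b t) (J5 a b t)) = 0 :=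
  (L11_eq ▸ good_r187b).twoC (J5_ok a b t) hC (by decide) (S.rel 17 1 11 4913 T1_r187b T2_r187b T3_r187b rok_r187b tab1_r187b tab2_r187b tab3_r187b (by norm_num)) hi (K := 4) rfl (by norm_num [BA]) (by norm_num)

/-- vectors by completing the square -/
theorem zC_r95 {a b t : ℤ} (S : Sys a b t) (hC : RC 5 T1_r95 0 13 (zd a b t) (J5 a b t))
    (hi : ∀ x ∈ (J5 a b t).map (fkI 19), 2 * x.2.2 * ii 19 x.2.2 % 19 = 1) :
    ip 13 6320 (RA 5 T1_r95 1600 W_r95 Y1_r95 Y0_r95 13 (zd a b t) (J5 a b t)) (VC 19 T3_r95 1600 (zd a b t) (J5 a b t)) = 0 :=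
  (L19_eq ▸ good_r95).twoC (J5_ok a b t) hC (by decide) (S.rel 5 1 19 13 T1_r95 T2_r95 T3_r95 rok_r95 tab1_r95 tab2_r95 tab3_r95 (by norm_num)) hi (K := 4) rfl (by norm_num [BA]) (by norm_num)

/-- vectors by completing the square -/
theorem zC_r133 {a b t : ℤ} (S : Sys a b t) (hC : RC 7 T1_r133 0 13 (zd a b t) (J5 a b t))
    (hi : ∀ x ∈ (J5 a b t).map (fkI 19), 2 * x.2.2 * ii 19 x.2.2 % 19 = 1) :
    ip 13 6320 (RA 7 T1_r133 1600 W_r133 Y1_r133 Y0_r133 13 (zd a b t) (J5 a b t)) (VC 19 T3_r133 1600 (zd a b t) (J5 a b t)) = 0 :=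
  (L19_eq ▸ good_r133).twoC (J5_ok a b t) hC (by decide) (S.rel 7 1 19 13 T1_r133 T2_r133 T3_r133 rok_r133 tab1_r133 tab2_r133 tab3_r133 (by norm_num)) hi (K := 4) rfl (by norm_num [BA]) (by norm_num)

/-- vectors by completing the square -/
theorem zC_r247a {a b t : ℤ} (S : Sys a b t) (hC : RC 13 T1_r247a 0 7 (zd a b t) (J5 a b t))
    (hi : ∀ x ∈ (J5 a b t).map (fkI 19), 2 * x.2.2 * ii 19 x.2.2 % 19 = 1) :
    ip 7 6320 (RA 13 T1_r247a 1600 W_r247a Y1_r247a Y0_r247a 7 (zd a b t) (J5 a b t)) (VC 19 T3_r247a 1600 (zd a b t) (J5 a b t)) = 0 :=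
  (L19_eq ▸ good_r247a).twoC (J5_ok a b t) hC (by decide) (S.rel 13 1 19 7 T1_r247a T2_r247a T3_r247a rok_r247a tab1_r247a tab2_r247a tab3_r247a (by norm_num)) hi (K := 4) rfl (by norm_num [BA]) (by norm_num)

/-- vectors by completing the square -/
theorem zC_r247b {a b t : ℤ} (S : Sys a b t) (hC : RC 13 T1_r247b 0 7 (zd a b t) (J5 a b t))
    (hi : ∀ x ∈ (J5 a b t).map (fkI 19), 2 * x.2.2 * ii 19 x.2.2 % 19 = 1) :
    ip 7 6320 (RA 13 T1_r247b 1600 W_r247b Y1_r247b Y0_r247b 7 (zd a b t) (J5 a b t)) (VC 19 T3_r247b 1600 (zd a b t) (J5 a b t)) = 0 :=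
  (L19_eq ▸ good_r247b).twoC (J5_ok a b t) hC (by decide) (S.rel 13 1 19 7 T1_r247b T2_r247b T3_r247b rok_r247b tab1_r247b tab2_r247b tab3_r247b (by norm_num)) hi (K := 4) rfl (by norm_num [BA]) (by norm_num)

/-- vectors by completing the square -/
theorem zC_r323a {a b t : ℤ} (S : Sys a b t) (hC : RC 17 T1_r323a 0 7 (zd a b t) (J5 a b t))
    (hi : ∀ x ∈ (J5 a b t).map (fkI 19), 2 * x.2.2 * ii 19 x.2.2 % 19 = 1) :
    ip 7 6320 (RA 17 T1_r323a 1600 W_r323a Y1_r323a Y0_r323a 7 (zd a b t) (J5 a b t)) (VC 19 T3_r323a 1600 (zd a b t) (J5 a b t)) = 0 :=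
  (L19_eq ▸ good_r323a).twoC (J5_ok a b t) hC (by decide) (S.rel 17 1 19 7 T1_r323a T2_r323a T3_r323a rok_r323a tab1_r323a tab2_r323a tab3_r323a (by norm_num)) hi (K := 4) rfl (by norm_num [BA]) (by norm_num)

/-- vectors by completing the square -/
theorem zC_r323b {a b t : ℤ} (S : Sys a b t) (hC : RC 17 T1_r323b 0 13 (zd a b t) (J5 a b t))
    (hi : ∀ x ∈ (J5 a b t).map (fkI 19), 2 * x.2.2 * ii 19 x.2.2 % 19 = 1) :
    ip 13 6320 (RA 17 T1_r323b 1600 W_r323b Y1_r323b Y0_r323b 13 (zd a b t) (J5 a b t)) (VC 19 T3_r323b 1600 (zd a b t) (J5 a b t)) = 0 :=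
  (L19_eq ▸ good_r323b).twoC (J5_ok a b t) hC (by decide) (S.rel 17 1 19 13 T1_r323b T2_r323b T3_r323b rok_r323b tab1_r323b tab2_r323b tab3_r323b (by norm_num)) hi (K := 4) rfl (by norm_num [BA]) (by norm_num)

/-- vectors by completing the square -/
theorem zC_r95f {a b t : ℤ} (S : Sys a b t) (hC : RC 19 T1_r95f 1 19 (zd a b t) (J5 a b t))
    (hi : ∀ x ∈ (J5 a b t).map (fkI 5), 2 * x.2.2 * ii 5 x.2.2 % 5 = 1) :
    ip 6859 1840 (RA 19 T1_r95f 480 W_r95f Y1_r95f Y0_r95f 19 (zd a b t) (J5 a b t)) (VC 5 T3_r95f 480 (zd a b t) (J5 a b t)) = 0 :=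
  (L5_eq ▸ good_r95f).twoC (J5_ok a b t) hC (by decide) (S.rel 19 1 5 6859 T1_r95f T2_r95f T3_r95f rok_r95f tab1_r95f tab2_r95f tab3_r95f (by norm_num)) hi (K := 4) rfl (by norm_num [BA]) (by norm_num)

end Pool.Agent.Lib_helper5.K5
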